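import Pool.Agent.Lib.MP_1a91b9_ntT.S2.Asm
import Pool.Agent.Lib.MP_1a91b9_ntT.S2.H7

/-!
# S2: the interface theorem (DOC2)
-/

set_option autoImplicit false

namespace Pool.Agent.Lib.MP_1a91b9_ntT

open NumberField

universe u

variable {F : Type u} [Field F] [NumberField F] [Algebra K F]

/-- DOC2 2.3, 2.6, 2.7, 2.8: the function `I` on tuples of boundary vectors. -/
theorem s2_main {m : ℕ} (σ : Fin (m + 1) → (F →ₐ[K] ℂ)) (hσ : Function.Bijective σ)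
    (δ : F → ℂ) (S : Set F) (hS : S.Finite) (hδ : Adm2 δ S) :
    ∃ I : (Fin (m + 1) → F) → ℂ,
      (∀ w : Fin (m + 2) → F, (∀ i, w i ∈ S) →
        ∑ i : Fin (m + 2), (-1) ^ (i : ℕ) * I (fun j => w (i.succAbove j)) = 0) ∧
      (∀ v : Fin (m + 1) → F, (∀ i, v i ∈ S) → ¬ LinearIndependent K v → I v = 0) ∧
      (∀ v : Fin (m + 1) → F, (∀ i, v i ∈ S) → LinearIndependent K v →
        ∀ D c : ℕ, 0 < D → 0 < c →
        (∀ i z, δ z ≠ 0 → ∃ a : 𝓞 K, (D : K) * Algebra.trace K F (v i * z) = a) →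
        (∀ μ : F, (∀ i, ∃ a : 𝓞 K, Algebra.trace K F (v i * μ) = (c : K) * a) →
          ∀ z, δ (z + μ) = δ z) →
        ∀ zz : (Fin (m + 1) → K) → F, (∀ a i, Algebra.trace K F (v i * zz a) = a i) →
        I v = (Matrix.of fun i j => σ j (v i)).det *
          ∑ x : Fin (m + 1) → Fin (c * D) × Fin (c * D), δ (zz fun i => ixK D c (x i)) *
            ∏ i, (c : ℂ)⁻¹ * E1 (ixC D c (x i) / c)) ∧
      (∀ ε : Fin m → F, (∀ i, ε i ≠ 0) → (∀ i, Algebra.norm K (ε i) = 1) →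
        (∀ i z, δ (ε i * z) = δ z) → (regM σ ε).det ≠ 0 →
        ∃ g : ℂ → ℂ, Differentiable ℂ g ∧
          (∀ R : Set F, IsReps ε (Function.support δ) R → ∀ s : ℂ, 2 < s.re →
            HasSum (fun z : R => δ z * (starRingEnd ℂ) (NF (z : F)) * (‖NF (z : F)‖ : ℂ) ^ (-2 * s))
              (g s)) ∧
          (∀ v₀ : F, v₀ ≠ 0 → (∀ T : Finset (Fin m), v₀ * ∏ i ∈ T, ε i ∈ S) →
            g 1 = ((SignType.sign (regM σ ε).det : ℤ) : ℂ) *
              ∑ s : Equiv.Perm (Fin m), ((Equiv.Perm.sign s : ℤ) : ℂ) * I (path ε s v₀))) := by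
  refine ⟨fun v => I2 σ δ (fun i => Frm.bd (v i)), ?_, ?_, ?_, ?_⟩
  · intro w hw
    exact asm_coc σ hσ hS hδ (fun i => Frm.bd (w i)) fun i => Or.inr ⟨_, hw i, rfl⟩
  · intro v _ h
    exact I2_dep σ δ v h
  · intro v _ hv D c hD hc h1 h2 zz hz
    exact frame_eval σ hσ δ v hv D c hD hc h1 h2 zz hz
  · intro ε hε hN hinv hdet
    exact ⟨S2A.gC σ ε δ, S2A.gC_differentiable σ hσ ε hS hδ,
      fun R hR s hs => S2A.gC_hasSum σ hσ ε hε hN hS hδ hinv hdet R hR s hs,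
      fun v₀ _ hv => asm_main σ hσ hS hδ ε hε hN hinv v₀ hv⟩

end Pool.Agent.Lib.MP_1a91b9_ntT
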