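import Pool.Agent.Lib.MP_1a91b9_ntT.S2.Defs
import Pool.Agent.Lib.MP_1a91b9_ntT.S2.C5

/-!
# S2c: torus evaluation (DOC2 2.6)
-/

set_option autoImplicit false

namespace Pool.Agent.Lib.MP_1a91b9_ntT

open MeasureTheory Set Filter Topology Equiv NumberField

noncomputable section

universe u

variable {F : Type u} [Field F] [Algebra K F] {m : ℕ}

/-- The action of `F` on the forms. -/
def actF {n : ℕ} (σ : Fin n → (F →ₐ[K] ℂ)) (ε : F) : Frm F n → Frm F n
  | .dg y => .dg fun j => ‖σ j ε‖ ^ 2 * y j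
  | .bd v => .bd (ε * v)

/-- The allowed forms. -/
def Yset (n : ℕ) (S : Set F) : Set (Frm F n) :=
  {P | (∃ y : Fin n → ℝ, (∀ j, 0 < y j) ∧ P = .dg y) ∨ ∃ v ∈ S, P = .bd v}

theorem actF_one {n : ℕ} (σ : Fin n → (F →ₐ[K] ℂ)) (P : Frm F n) : actF σ 1 P = P := by
  cases P <;> simp [actF]

theorem actF_mul {n : ℕ} (σ : Fin n → (F →ₐ[K] ℂ)) (g h : F) (P : Frm F n) :
    actF σ (g * h) P = actF σ g (actF σ h P) := by
  cases P
  · simp only [actF, map_mul, norm_mul, mul_pow, mul_assoc]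
  · simp only [actF, mul_assoc]

/-- The logarithms of the units. -/
def gaml (σ : Fin (m + 1) → (F →ₐ[K] ℂ)) (ε : Fin m → F) (i : Fin m) (j : Fin (m + 1)) : ℝ :=
  Real.log (‖σ j (ε i)‖ ^ 2)

theorem rg_gaml (σ : Fin (m + 1) → (F →ₐ[K] ℂ)) (ε : Fin m → F) :
    rg (gaml σ ε) = regM σ ε := rfl

/-- DOC2 2.6: the torus evaluation. -/
theorem torus_eval (σ : Fin (m + 1) → (F →ₐ[K] ℂ)) (ε : Fin m → F) (hε : ∀ i, ε i ≠ 0)
    (hN : ∀ i, ∑ j, Real.log (‖σ j (ε i)‖ ^ 2) = 0) (S : Set F)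
    (J : (Fin (m + 1) → Frm F (m + 1)) → ℂ) (θ : (Fin (m + 1) → ℝ) → ℂ) (hθ : ThB θ)
    (hC : Coc (Yset (m + 1) S) J) (hI : ∀ i, Inva (Yset (m + 1) S) (actF σ (ε i)) J)
    (hD : ∀ y : Fin (m + 1) → Fin (m + 1) → ℝ, (∀ i j, 0 < y i j) →
      J (fun i => .dg (y i)) = ((Matrix.of y).det : ℂ) *
        ∫ t in univ.pi (fun _ : Fin (m + 1) => Ioi (0 : ℝ)), θ (∑ i, t i • y i))
    (v₀ : F) (hv : ∀ T : Finset (Fin m), v₀ * ∏ i ∈ T, ε i ∈ S) :
    ((regM σ ε).det : ℂ) * ∫ u in cube m, ∫ r in Ioi (0 : ℝ),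
        θ (r • yv (gaml σ ε) u) * (r : ℂ) ^ m =
      ∑ s : Perm (Fin m), ((Perm.sign s : ℤ) : ℂ) * J (fun j => .bd (path ε s v₀ j)) := by
  have hf : ∀ w : Fin (m + 1) → (Fin m → ℝ),
      J (fun i => .dg (yv (gaml σ ε) (w i))) = fdg θ (gaml σ ε) w := fun w =>
    hD (fun i => yv (gaml σ ε) (w i)) fun _ _ => yv_pos _ _ _
  have hdgY : ∀ w : Fin m → ℝ, (Frm.dg (yv (gaml σ ε) w) : Frm F (m + 1)) ∈ Yset (m + 1) S :=
    fun w => Or.inl ⟨_, yv_pos _ _, rfl⟩
  have hc : Coc univ (fdg θ (gaml σ ε)) := by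
    intro w _
    have := hC (fun i => .dg (yv (gaml σ ε) (w i))) (fun i => hdgY _)
    simpa only [hf] using this
  have hact : ∀ (i : Fin m) (u : Fin m → ℝ), actF σ (ε i) (.dg (yv (gaml σ ε) u)) =
      .dg (yv (gaml σ ε) (Pi.single i 1 + u)) := by
    intro i u
    simp only [actF]
    congr 1
    funext j
    rw [yv_add]
    congr 1
    have hp : 0 < ‖σ j (ε i)‖ ^ 2 := by
      have : σ j (ε i) ≠ 0 := by
        rw [Ne, map_eq_zero]
        exact hε i
      positivity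
    rw [yv, Finset.sum_eq_single i]
    · rw [Pi.single_eq_same, one_mul, gaml, Real.exp_log hp]
    · intro k _ hk
      simp [Pi.single_eq_of_ne hk]
    · simp
  have hi : ∀ i : Fin m, Inva univ (fun x => Pi.single i 1 + x) (fdg θ (gaml σ ε)) := by
    intro i p _ _
    rw [← hf, ← hf]
    have := hI i (fun j => .dg (yv (gaml σ ε) (p j))) (fun j => hdgY _) (fun j => by
      rw [hact]
      exact hdgY _)
    rw [← this]
    congr 1
    funext j
    rw [hact]
  have h1 := torus_limit hθ (gaml σ ε) hN hc hi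
  rw [rg_gaml] at h1
  rw [← h1]
  -- the path of diagonal forms
  have hprod : ∀ (A : Finset (Fin m)) (e' : Fin m → Fin m) (u : Fin m → ℝ),
      actF σ (∏ l ∈ A, ε (e' l)) (.dg (yv (gaml σ ε) u)) =
        .dg (yv (gaml σ ε) ((∑ l ∈ A, Pi.single (e' l) 1) + u)) := by
    intro A e' u
    induction A using Finset.induction_on with
    | empty => simp [actF_one]
    | insert a A ha ih => rw [Finset.prod_insert ha, Finset.sum_insert ha, actF_mul, ih, hact,
        add_assoc]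
  have h2 : ∀ u : Fin m → ℝ, Zs actA (fun i => Multiplicative.ofAdd (Pi.single i 1 : Fin m → ℝ))
      (fdg θ (gaml σ ε)) u = Zs (actF σ) ε J (.dg (yv (gaml σ ε) u)) := by
    intro u
    simp only [Zs]
    refine Finset.sum_congr rfl fun s _ => ?_
    congr 1
    rw [← hf]
    congr 1
    funext j
    simp only [pth]
    rw [← Finset.prod_filter, ← Finset.prod_filter, hprod]
    simp only [actA, toAdd_prod, toAdd_ofAdd]
  have h3 : ∀ u : Fin m → ℝ, Zs (actF σ) ε J (.dg (yv (gaml σ ε) u)) =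
      Zs (actF σ) ε J (.bd v₀) := by
    intro u
    refine prism (actF σ) (actF_one σ) (actF_mul σ) ε (Yset (m + 1) S) J hC hI _ _
      (fun T => ?_) fun T => ?_
    · have := hprod T id u
      simp only [id] at this
      rw [this]
      exact hdgY _
    · refine Or.inr ⟨_, hv T, ?_⟩
      simp only [actF]
      rw [mul_comm]
  simp only [h2, h3]
  rw [setIntegral_const, Measure.real, volume_cube]
  simp only [ENNReal.toReal_one, one_smul, Zs]
  refine Finset.sum_congr rfl fun s _ => ?_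
  congr 2
  funext j
  simp only [pth, actF, path]
  rw [mul_comm]

end

end Pool.Agent.Lib.MP_1a91b9_ntT
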