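import Pool.Agent.Lib.MP_1a91b9_ntT.S2.H3
import Pool.Agent.Lib.MP_1a91b9_ntT.S2.C6
import Pool.Agent.Lib.MP_1a91b9_ntT.S2.Cnt

/-!
# S2: assembly of the cocycle, the torus evaluation and the continuation
-/

set_option autoImplicit false
set_option linter.unusedSectionVars false

namespace Pool.Agent.Lib.MP_1a91b9_ntT

open NumberField MeasureTheory Set

noncomputable section

universe u

variable {F : Type u} [Field F] [NumberField F] [Algebra K F]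

/-- Export E1 in the form of `H2`. -/
theorem asm_sumE {n : ℕ} (σ : Fin n → (F →ₐ[K] ℂ)) (hσ : Function.Bijective σ)
    {δ : F → ℂ} {S : Set F} (hS : S.Finite) (hδ : Adm2 δ S) : SumE σ δ S := by
  intro k P hP hF t ht Q
  have ht' : ∀ i, 0 < t i := mem_Oc.1 ht
  exact ⟨S2A.ex_summable σ hσ hS hδ P hP hF Q t ht',
    fun R => S2A.ex_summable_val σ hσ hS hδ P hP hF R Q t ht'⟩

/-- Export E2 in the form of `H2`. -/
theorem asm_intE {n : ℕ} (σ : Fin n → (F →ₐ[K] ℂ)) (hσ : Function.Bijective σ)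
    {δ : F → ℂ} {S : Set F} (hS : S.Finite) (hδ : Adm2 δ S) : IntE σ δ S := by
  intro P hP hF i
  exact S2A.ex_integrable_val σ hσ hS hδ P hP hF (P i) (fun k => P (i.succAbove k))

theorem asm_okF {n : ℕ} {S : Set F} {P : Frm F n} (h : P ∈ Yset n S) : OkF S P := by
  rcases h with ⟨y, hy, rfl⟩ | ⟨v, hv, rfl⟩
  · exact hy
  · exact hv

theorem asm_coc {m : ℕ} (σ : Fin (m + 1) → (F →ₐ[K] ℂ)) (hσ : Function.Bijective σ)
    {δ : F → ℂ} {S : Set F} (hS : S.Finite) (hδ : Adm2 δ S) :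
    Coc (Yset (m + 1) S) (I2 σ δ) := by
  intro w hw
  exact I2_cocycle σ hσ (Nat.succ_pos m) hδ (asm_sumE σ hσ hS hδ) (asm_intE σ hσ hS hδ) w
    fun i => asm_okF (hw i)

theorem asm_actF {n : ℕ} (σ : Fin n → (F →ₐ[K] ℂ)) (ε : F) (P : Frm F n) :
    actF σ ε P = epsF σ ε P := by
  cases P <;> rfl

theorem asm_inva {m : ℕ} (σ : Fin (m + 1) → (F →ₐ[K] ℂ)) (hσ : Function.Bijective σ)
    {δ : F → ℂ} {S : Set F} (ε : F) (h0 : ε ≠ 0) (h1 : Algebra.norm K ε = 1)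
    (hδ : ∀ z, δ (ε * z) = δ z) : Inva (Yset (m + 1) S) (actF σ ε) (I2 σ δ) := by
  intro p _ _
  have := I2_eps σ hσ δ ε h0 h1 hδ p
  rw [← this]
  have e : (fun j => actF σ ε (p j)) = fun j => epsF σ ε (p j) := funext fun j => asm_actF σ ε _
  rw [e]

theorem asm_thB {n : ℕ} (σ : Fin n → (F →ₐ[K] ℂ)) (hσ : Function.Bijective σ)
    {δ : F → ℂ} {S : Set F} (hS : S.Finite) (hδ : Adm2 δ S) : ThB (S2A.th σ δ) where
  cont := S2A.th_continuousOn σ hσ hS hδ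
  bdd := by
    intro a b ha
    obtain ⟨C, c, _, hc, h⟩ := S2A.th_bound σ hσ hS hδ a b ha 0
    refine ⟨C, c, hc, fun y hy t ht => ?_⟩
    have := h y hy t ht
    rwa [pow_zero, mul_one] at this

theorem asm_log {m : ℕ} (σ : Fin (m + 1) → (F →ₐ[K] ℂ)) (hσ : Function.Bijective σ)
    (ε : F) (h0 : ε ≠ 0) (h1 : Algebra.norm K ε = 1) :
    ∑ j, Real.log (‖σ j ε‖ ^ 2) = 0 := by
  have hne : ∀ j, ‖σ j ε‖ ^ 2 ≠ 0 := by
    intro j
    have : σ j ε ≠ 0 := by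
      rw [Ne, map_eq_zero]
      exact h0
    positivity
  rw [← Real.log_prod fun j _ => hne j, Finset.prod_pow, ← norm_prod, ← nf_prod σ hσ, NF, h1]
  simp

/-- The last part of `s2_main`. -/
theorem asm_main {m : ℕ} (σ : Fin (m + 1) → (F →ₐ[K] ℂ)) (hσ : Function.Bijective σ)
    {δ : F → ℂ} {S : Set F} (hS : S.Finite) (hδ : Adm2 δ S)
    (ε : Fin m → F) (hε : ∀ i, ε i ≠ 0) (hN : ∀ i, Algebra.norm K (ε i) = 1)
    (hinv : ∀ i z, δ (ε i * z) = δ z) (v₀ : F)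
    (hv : ∀ T : Finset (Fin m), v₀ * ∏ i ∈ T, ε i ∈ S) :
    S2A.gC σ ε δ 1 = ((SignType.sign (regM σ ε).det : ℤ) : ℂ) *
      ∑ s : Equiv.Perm (Fin m), ((Equiv.Perm.sign s : ℤ) : ℂ) *
        I2 σ δ (fun j => .bd (path ε s v₀ j)) := by
  have h := torus_eval σ ε hε (fun i => asm_log σ hσ (ε i) (hε i) (hN i)) S (I2 σ δ)
    (S2A.th σ δ) (asm_thB σ hσ hS hδ) (asm_coc σ hσ hS hδ)
    (fun i => asm_inva σ hσ (ε i) (hε i) (hN i) (hinv i))
    (fun y hy => by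
      have h2 := I2_dg σ hσ δ y
      rw [h2]
      congr 1
      refine setIntegral_congr_fun (measurableSet_Oc _) fun t _ => ?_
      simp only [thetaF, S2A.th, Finset.sum_apply, Pi.smul_apply, smul_eq_mul]) v₀ hv
  rw [← h, S2A.gC_one σ hσ ε hS hδ, ← mul_assoc, setIntegral_cube]
  have h3 : ((|(regM σ ε).det| : ℝ) : ℂ) =
      ((SignType.sign (regM σ ε).det : ℤ) : ℂ) * ((regM σ ε).det : ℂ) := by
    rw [← sign_mul_self (regM σ ε).det]
    push_cast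
    congr 1
    rcases lt_trichotomy (regM σ ε).det 0 with h4 | h4 | h4
    · simp [h4]
    · simp [h4]
    · simp [h4]
  rw [h3]
  rfl

end

end Pool.Agent.Lib.MP_1a91b9_ntT
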