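import Pool.Agent.Lib.MP_1a91b9_ntT.S2.C2

/-!
# S2c: averaging over the torus (DOC2 2.6)
-/

set_option autoImplicit false

namespace Pool.Agent.Lib.MP_1a91b9_ntT

open Equiv MeasureTheory Pointwise

noncomputable section

variable {m : ℕ}

/-- The unit cube. -/
def cube (m : ℕ) : Set (Fin m → ℝ) := Set.univ.pi fun _ => Set.Ico (0 : ℝ) 1

theorem cube_eq : cube m = ZSpan.fundamentalDomain (Pi.basisFun ℝ (Fin m)) := by
  ext u
  simp [cube, ZSpan.mem_fundamentalDomain]

theorem measurableSet_cube : MeasurableSet (cube m) :=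
  MeasurableSet.univ_pi fun _ => measurableSet_Ico

theorem cube_subset : cube m ⊆ Set.Icc 0 1 := by
  intro u hu
  rw [← Set.pi_univ_Icc]
  exact fun i hi => Set.Ico_subset_Icc_self (hu i hi)

theorem volume_cube : volume (cube m) = 1 := by
  rw [cube, volume_pi_pi]
  simp

theorem integrableOn_cube {g : (Fin m → ℝ) → ℂ} (hg : Continuous g) : IntegrableOn g (cube m) :=
  (hg.continuousOn.integrableOn_compact isCompact_Icc).mono_set cube_subset

/-- The integral of a periodic function over the cube is translation invariant. -/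
theorem integral_cube_add (g : (Fin m → ℝ) → ℂ)
    (hg : ∀ (i : Fin m) (u : Fin m → ℝ), g (Pi.single i 1 + u) = g u) (a : Fin m → ℝ) :
    ∫ u in cube m, g (a + u) = ∫ u in cube m, g u := by
  have hinv : ∀ (l : (Submodule.span ℤ (Set.range (Pi.basisFun ℝ (Fin m)))).toAddSubgroup)
      (x : Fin m → ℝ), g (l +ᵥ x) = g x := by
    rintro ⟨l, hl⟩ x
    show g (l + x) = g x
    rw [Submodule.mem_toAddSubgroup] at hl
    induction hl using Submodule.span_induction generalizing x with
    | mem l hl =>
      obtain ⟨i, rfl⟩ := hl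
      rw [Pi.basisFun_apply]
      exact hg i x
    | zero => simp
    | add p q _ _ hp hq => rw [add_assoc, hp, hq]
    | smul c p _ hp =>
      induction c using Int.induction_on generalizing x with
      | zero => simp
      | succ n ih => rw [add_smul, one_smul, add_assoc, ih, hp]
      | pred n ih =>
        have := hp ((-(n : ℤ) - 1) • p + x)
        rw [← this, ← add_assoc, ← ih x]
        congr 2
        rw [sub_smul, one_smul]
        abel
  have h1 : IsAddFundamentalDomain
      (Submodule.span ℤ (Set.range (Pi.basisFun ℝ (Fin m)))).toAddSubgroup (cube m) volume := by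
    rw [cube_eq]
    exact ZSpan.isAddFundamentalDomain' _ _
  have h2 := h1.vadd_of_comm a
  haveI : Countable (Submodule.span ℤ (Set.range (Pi.basisFun ℝ (Fin m)))).toAddSubgroup :=
    inferInstanceAs (Countable (Submodule.span ℤ (Set.range (Pi.basisFun ℝ (Fin m)))))
  have h3 := h2.setIntegral_eq h1 hinv
  rw [← h3]
  have h4 := (measurePreserving_add_left (volume : Measure (Fin m → ℝ)) a).setIntegral_preimage_emb
    (measurableEmbedding_addLeft a) g (a +ᵥ cube m)
  rw [← h4]
  congr 2
  ext u
  simp [Set.mem_vadd_set]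

/-- The average of a function over the torus. -/
def avg {N : ℕ} (f : (Fin N → (Fin m → ℝ)) → ℂ) (w : Fin N → (Fin m → ℝ)) : ℂ :=
  ∫ u in cube m, f (fun j => u + w j)

theorem avg_coc {n : ℕ} {f : (Fin (n + 1) → (Fin m → ℝ)) → ℂ} (hf : Continuous f)
    (hc : Coc Set.univ f) : Coc Set.univ (avg f) := by
  intro w _
  have h : ∀ i : Fin (n + 2), (-1 : ℂ) ^ (i : ℕ) * avg f (fun j => w (i.succAbove j)) =
      ∫ u in cube m, (-1 : ℂ) ^ (i : ℕ) * f (fun j => u + w (i.succAbove j)) := by
    intro i
    rw [avg, integral_const_mul]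
  simp only [h]
  rw [← integral_finsetSum]
  · have : ∀ u : Fin m → ℝ, ∑ i : Fin (n + 2),
        (-1 : ℂ) ^ (i : ℕ) * f (fun j => u + w (i.succAbove j)) = 0 := fun u =>
      hc (fun j => u + w j) (fun _ => Set.mem_univ _)
    simp [this]
  · intro i _
    refine integrableOn_cube ?_
    fun_prop

theorem avg_inva {n : ℕ} {f : (Fin (n + 1) → (Fin m → ℝ)) → ℂ}
    (hf : ∀ i : Fin m, Inva Set.univ (fun x => Pi.single i 1 + x) f) (a : Fin m → ℝ) :
    Inva Set.univ (fun x => a + x) (avg f) := by
  intro p _ _
  have h := integral_cube_add (fun u => f (fun j => u + p j)) (fun i u => by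
    have := hf i (fun j => u + p j) (fun _ => Set.mem_univ _) (fun _ => Set.mem_univ _)
    rw [← this]
    congr 1
    funext j
    rw [add_assoc]) a
  simp only [avg]
  rw [← h]
  congr 1
  funext u
  congr 1
  funext j
  abel

theorem ZA_avg {f : (Fin (m + 1) → (Fin m → ℝ)) → ℂ} (hf : Continuous f)
    (e : Fin m → (Fin m → ℝ)) :
    ZA (avg f) e =
      ∫ u in cube m, Zs actA (fun i => Multiplicative.ofAdd (e i)) f u := by
  have h : ∀ s : Perm (Fin m), ((Perm.sign s : ℤ) : ℂ) *
      avg f (pth actA (fun i => Multiplicative.ofAdd (e i)) s 0) =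
      ∫ u in cube m, ((Perm.sign s : ℤ) : ℂ) *
        f (pth actA (fun i => Multiplicative.ofAdd (e i)) s u) := by
    intro s
    rw [avg, integral_const_mul]
    congr 2
    funext u
    congr 1
    funext j
    simp only [pth, actA]
    abel
  simp only [ZA, Zs, h]
  rw [← integral_finsetSum]
  intro s _
  refine integrableOn_cube ?_
  have hp : Continuous (fun u : Fin m → ℝ =>
      pth actA (fun i => Multiplicative.ofAdd (e i)) s u) := by
    refine continuous_pi fun j => ?_
    simp only [pth, actA]
    fun_prop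
  exact continuous_const.mul (hf.comp hp)

end

end Pool.Agent.Lib.MP_1a91b9_ntT
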