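import Mathlib

/-!
# S2c: integral of a function of the sum over the positive orthant (DOC2 2.6)
-/

set_option autoImplicit false

namespace Pool.Agent.Lib.MP_1a91b9_ntT

open MeasureTheory Set

open scoped Nat

noncomputable section

theorem lintegral_Ioi_add (g : ℝ → ENNReal) (r : ℝ) :
    ∫⁻ x in Ioi (0 : ℝ), g (x + r) = ∫⁻ R in Ioi r, g R := by
  have h := (measurePreserving_add_right (volume : Measure ℝ) r).setLIntegral_comp_preimage_emb
    (measurableEmbedding_addRight r) g (Ioi r)
  rw [← h]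
  congr 2
  ext x
  simp

theorem lintegral_Ioo_pow (m : ℕ) (R : ℝ) (hR : 0 < R) :
    ∫⁻ r in Ioo (0 : ℝ) R, ENNReal.ofReal (r ^ m / m !) =
      ENNReal.ofReal (R ^ (m + 1) / (m + 1)!) := by
  rw [← ofReal_integral_eq_lintegral_ofReal]
  · congr 1
    rw [← integral_Ioc_eq_integral_Ioo, ← intervalIntegral.integral_of_le hR.le,
      intervalIntegral.integral_div, integral_pow, Nat.factorial_succ]
    push_cast
    have h1 : ((m : ℝ) + 1) ≠ 0 := by positivity
    have h2 : ((m ! : ℕ) : ℝ) ≠ 0 := by positivity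
    field_simp
    ring
  · have : Continuous fun r : ℝ => r ^ m / (m ! : ℝ) := by fun_prop
    exact (this.integrableOn_Icc (a := 0) (b := R)).mono_set Ioo_subset_Icc_self
  · refine (ae_restrict_iff' measurableSet_Ioo).2 (Filter.Eventually.of_forall fun r hr => ?_)
    have := hr.1
    positivity

theorem lintegral_conv (m : ℕ) (g : ℝ → ENNReal) (hg : Measurable g) :
    ∫⁻ x in Ioi (0 : ℝ), ∫⁻ r in Ioi (0 : ℝ), g (x + r) * ENNReal.ofReal (r ^ m / m !) =
      ∫⁻ R in Ioi (0 : ℝ), g R * ENNReal.ofReal (R ^ (m + 1) / (m + 1)!) := by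
  rw [lintegral_lintegral_swap (by fun_prop)]
  have h1 : ∀ r : ℝ, ∫⁻ x in Ioi (0 : ℝ), g (x + r) * ENNReal.ofReal (r ^ m / m !) =
      ∫⁻ R in Ioi r, g R * ENNReal.ofReal (r ^ m / m !) := fun r =>
    lintegral_Ioi_add (fun R => g R * ENNReal.ofReal (r ^ m / m !)) r
  simp only [h1]
  have h2 : ∀ r ∈ Ioi (0 : ℝ), ∫⁻ R in Ioi r, g R * ENNReal.ofReal (r ^ m / m !) =
      ∫⁻ R in Ioi (0 : ℝ), (if r < R then g R * ENNReal.ofReal (r ^ m / m !) else 0) := by
    intro r hr
    have hr' : (0 : ℝ) < r := hr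
    rw [← lintegral_indicator measurableSet_Ioi, ← lintegral_indicator measurableSet_Ioi]
    refine lintegral_congr fun R => ?_
    simp only [indicator, mem_Ioi]
    split_ifs with h3 h4 h4 <;> first | rfl | (exfalso; linarith)
  rw [setLIntegral_congr_fun measurableSet_Ioi h2]
  rw [lintegral_lintegral_swap]
  · refine setLIntegral_congr_fun measurableSet_Ioi fun R hR => ?_
    have hR' : (0 : ℝ) < R := hR
    rw [← lintegral_Ioo_pow m R hR', ← lintegral_const_mul _ (by fun_prop)]
    rw [← lintegral_indicator measurableSet_Ioi, ← lintegral_indicator measurableSet_Ioo]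
    refine lintegral_congr fun r => ?_
    simp only [indicator, mem_Ioi, mem_Ioo]
    split_ifs with h3 h4 h5 h5 <;> first | rfl | (exfalso; tauto)
  · refine Measurable.aemeasurable ?_
    refine Measurable.ite ?_ (by fun_prop) measurable_const
    exact measurableSet_lt (by fun_prop) (by fun_prop)

/-- The sum of the coordinates pushes Lebesgue measure of the orthant to `r ^ m / m!`. -/
theorem lintegral_sum_orthant : ∀ (m : ℕ) (g : ℝ → ENNReal), Measurable g →
    ∫⁻ t in univ.pi (fun _ : Fin (m + 1) => Ioi (0 : ℝ)), g (∑ i, t i) =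
      ∫⁻ r in Ioi (0 : ℝ), g r * ENNReal.ofReal (r ^ m / m !) := by
  intro m
  induction m with
  | zero =>
    intro g hg
    have h := (volume_preserving_funUnique (Fin 1) ℝ).symm
    have h2 := h.setLIntegral_comp_preimage_emb (MeasurableEquiv.measurableEmbedding _)
      (fun t : Fin 1 → ℝ => g (∑ i, t i)) (univ.pi (fun _ : Fin 1 => Ioi (0 : ℝ)))
    refine (h2.symm.trans ?_)
    have h3 : (MeasurableEquiv.funUnique (Fin 1) ℝ).symm ⁻¹' univ.pi (fun _ : Fin 1 => Ioi (0 : ℝ)) =
        Ioi 0 := by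
      ext x
      simp [MeasurableEquiv.funUnique, Equiv.funUnique]
    rw [h3]
    refine lintegral_congr fun x => ?_
    simp [MeasurableEquiv.funUnique, Equiv.funUnique]
  | succ m ih =>
    intro g hg
    rw [← lintegral_conv m g hg]
    have h := (volume_preserving_piFinSuccAbove (fun _ : Fin (m + 2) => ℝ) 0).symm
    have h2 := h.setLIntegral_comp_preimage_emb (MeasurableEquiv.measurableEmbedding _)
      (fun t : Fin (m + 2) → ℝ => g (∑ i, t i)) (univ.pi (fun _ : Fin (m + 2) => Ioi (0 : ℝ)))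
    rw [← h2]
    have h3 : (MeasurableEquiv.piFinSuccAbove (fun _ : Fin (m + 2) => ℝ) 0).symm ⁻¹'
        univ.pi (fun _ : Fin (m + 2) => Ioi (0 : ℝ)) =
        (Ioi (0 : ℝ)) ×ˢ (univ.pi (fun _ : Fin (m + 1) => Ioi (0 : ℝ))) := by
      ext x
      simp [MeasurableEquiv.piFinSuccAbove, Fin.forall_fin_succ, Fin.insertNthEquiv]
    rw [h3, Measure.volume_eq_prod, ← Measure.prod_restrict, lintegral_prod]
    · refine setLIntegral_congr_fun measurableSet_Ioi fun x hx => ?_
      have := ih (fun r => g (x + r)) (by fun_prop)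
      rw [← this]
      refine lintegral_congr fun t => ?_
      congr 1
      simp [MeasurableEquiv.piFinSuccAbove, Fin.sum_univ_succ, Fin.insertNthEquiv]
    · refine Measurable.aemeasurable ?_
      fun_prop

/-- The same for integrals. -/
theorem integral_sum_orthant (m : ℕ) (h : ℝ → ℂ) (hh : ContinuousOn h (Ioi 0)) :
    ∫ t in univ.pi (fun _ : Fin (m + 1) => Ioi (0 : ℝ)), h (∑ i, t i) =
      ((m ! : ℕ) : ℂ)⁻¹ * ∫ r in Ioi (0 : ℝ), h r * (r : ℂ) ^ m := by
  have hS : Measurable (fun t : Fin (m + 1) → ℝ => ∑ i, t i) := by fun_prop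
  have hmap : Measure.map (fun t : Fin (m + 1) → ℝ => ∑ i, t i)
      (volume.restrict (univ.pi fun _ : Fin (m + 1) => Ioi (0 : ℝ))) =
      (volume.restrict (Ioi (0 : ℝ))).withDensity (fun r => ENNReal.ofReal (r ^ m / m !)) := by
    refine Measure.ext_of_lintegral _ fun g hg => ?_
    rw [lintegral_map hg hS, lintegral_sum_orthant m g hg,
      lintegral_withDensity_eq_lintegral_mul _ (by fun_prop) hg]
    refine lintegral_congr fun r => ?_
    simp [mul_comm]
  have haes : AEStronglyMeasurable h (Measure.map (fun t : Fin (m + 1) → ℝ => ∑ i, t i)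
      (volume.restrict (univ.pi fun _ : Fin (m + 1) => Ioi (0 : ℝ)))) := by
    rw [hmap]
    exact (hh.aestronglyMeasurable measurableSet_Ioi).mono_ac
      (withDensity_absolutelyContinuous _ _)
  rw [← integral_map hS.aemeasurable haes, hmap,
    integral_withDensity_eq_integral_toReal_smul (by fun_prop)
      (Filter.Eventually.of_forall fun _ => ENNReal.ofReal_lt_top), ← integral_const_mul]
  refine setIntegral_congr_fun measurableSet_Ioi fun r hr => ?_
  have hr' : (0 : ℝ) < r := hr
  rw [ENNReal.toReal_ofReal (by positivity), Complex.real_smul]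
  push_cast
  rw [div_eq_mul_inv]
  ring

end

end Pool.Agent.Lib.MP_1a91b9_ntT
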