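import Pool.Agent.Lib.MP_1a91b9_ntT.S2.C4a

/-!
# S2c: integrals of theta functions over cones (DOC2 2.6)
-/

set_option autoImplicit false

namespace Pool.Agent.Lib.MP_1a91b9_ntT

open MeasureTheory Set Filter Topology

open scoped Nat

noncomputable section

/-- The two properties of the theta function which are used. -/
structure ThB {n : ℕ} (θ : (Fin n → ℝ) → ℂ) : Prop where
  cont : ContinuousOn θ {y | ∀ j, 0 < y j}
  bdd : ∀ a b : ℝ, 0 < a → ∃ C c : ℝ, 0 < c ∧ ∀ y : Fin n → ℝ, (∀ j, a ≤ y j ∧ y j ≤ b) →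
    ∀ t : ℝ, 0 < t → ‖θ (t • y)‖ ≤ C * Real.exp (-c * t)

/-- The integral of `θ` over the cone of `y`. -/
def Jint {n m : ℕ} (θ : (Fin n → ℝ) → ℂ) (y : Fin (m + 1) → Fin n → ℝ) : ℂ :=
  ∫ t in univ.pi (fun _ : Fin (m + 1) => Ioi (0 : ℝ)), θ (∑ i, t i • y i)

variable {n m : ℕ} {θ : (Fin n → ℝ) → ℂ}

theorem ThB.bdd_sum (hθ : ThB θ) (a b : ℝ) (ha : 0 < a) : ∃ C c : ℝ, 0 < c ∧
    ∀ y : Fin (m + 1) → Fin n → ℝ, (∀ i j, a ≤ y i j ∧ y i j ≤ b) →
    ∀ t ∈ univ.pi (fun _ : Fin (m + 1) => Ioi (0 : ℝ)),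
      ‖θ (∑ i, t i • y i)‖ ≤ C * Real.exp (-c * ∑ i, t i) := by
  obtain ⟨C, c, hc, h⟩ := hθ.bdd a b ha
  refine ⟨C, c, hc, fun y hy t ht => ?_⟩
  have ht' : ∀ i, 0 < t i := fun i => ht i (mem_univ i)
  have hT : 0 < ∑ i, t i := Finset.sum_pos (fun i _ => ht' i) Finset.univ_nonempty
  have h1 : ∑ i, t i • y i = (∑ i, t i) • ((∑ i, t i)⁻¹ • ∑ i, t i • y i) := by
    rw [smul_smul, mul_inv_cancel₀ hT.ne', one_smul]
  rw [h1]
  refine h _ (fun j => ?_) _ hT
  rw [Pi.smul_apply, Finset.sum_apply, smul_eq_mul, inv_mul_eq_div, le_div_iff₀ hT,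
    div_le_iff₀ hT, Finset.mul_sum, Finset.mul_sum]
  constructor
  · refine Finset.sum_le_sum fun i _ => ?_
    rw [Pi.smul_apply, smul_eq_mul, mul_comm]
    exact mul_le_mul_of_nonneg_left (hy i j).1 (ht' i).le
  · refine Finset.sum_le_sum fun i _ => ?_
    rw [Pi.smul_apply, smul_eq_mul, mul_comm b]
    exact mul_le_mul_of_nonneg_left (hy i j).2 (ht' i).le

theorem integrable_exp_orthant (N : ℕ) (C c : ℝ) (hc : 0 < c) :
    IntegrableOn (fun t : Fin N → ℝ => C * Real.exp (-c * ∑ i, t i))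
      (univ.pi (fun _ : Fin N => Ioi (0 : ℝ))) := by
  refine Integrable.const_mul ?_ C
  have h : (fun t : Fin N → ℝ => Real.exp (-c * ∑ i, t i)) =
      fun t => ∏ i, Real.exp (-c * t i) := by
    funext t
    rw [← Real.exp_sum, Finset.mul_sum]
  rw [h, volume_pi, Measure.restrict_pi_pi]
  exact Integrable.fintype_prod (f := fun _ : Fin N => fun x : ℝ => Real.exp (-c * x))
    (fun i => exp_neg_integrableOn_Ioi 0 hc)

theorem pos_sum_smul {y : Fin (m + 1) → Fin n → ℝ} (hy : ∀ i j, 0 < y i j)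
    {t : Fin (m + 1) → ℝ} (ht : t ∈ univ.pi (fun _ : Fin (m + 1) => Ioi (0 : ℝ))) :
    ∑ i, t i • y i ∈ {y : Fin n → ℝ | ∀ j, 0 < y j} := by
  intro j
  rw [Finset.sum_apply]
  exact Finset.sum_pos (fun i _ => mul_pos (ht i (mem_univ i)) (hy i j)) Finset.univ_nonempty

theorem measurableSet_orthant (N : ℕ) :
    MeasurableSet (univ.pi (fun _ : Fin N => Ioi (0 : ℝ))) :=
  MeasurableSet.univ_pi fun _ => measurableSet_Ioi

theorem isOpen_pos (n : ℕ) : IsOpen {y : Fin n → ℝ | ∀ j, 0 < y j} := by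
  have : {y : Fin n → ℝ | ∀ j, 0 < y j} = univ.pi (fun _ : Fin n => Ioi (0 : ℝ)) := by
    ext y; simp
  rw [this]
  exact isOpen_set_pi finite_univ fun _ _ => isOpen_Ioi

/-- Continuity of the cone integral in the parameters. -/
theorem Jint_continuous {P : Type*} [TopologicalSpace P] [FirstCountableTopology P]
    (hθ : ThB θ) (Y : P → Fin (m + 1) → Fin n → ℝ) (hY : Continuous Y)
    (hpos : ∀ p i j, 0 < Y p i j) : Continuous fun p => Jint θ (Y p) := by
  rw [continuous_iff_continuousAt]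
  intro p₀
  -- bounds near `p₀`
  obtain ⟨a, b, ha, hab⟩ : ∃ a b : ℝ, 0 < a ∧ ∀ᶠ p in 𝓝 p₀, ∀ i j, a ≤ Y p i j ∧ Y p i j ≤ b := by
    have hc : ∀ i j, Continuous fun p => Y p i j := fun i j => by fun_prop
    by_cases hn : Nonempty (Fin n)
    · obtain ⟨q, hq⟩ := Finite.exists_min (fun q : Fin (m + 1) × Fin n => Y p₀ q.1 q.2)
      obtain ⟨q', hq'⟩ := Finite.exists_max (fun q : Fin (m + 1) × Fin n => Y p₀ q.1 q.2)
      refine ⟨Y p₀ q.1 q.2 / 2, Y p₀ q'.1 q'.2 + 1, by have := hpos p₀ q.1 q.2; positivity, ?_⟩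
      rw [eventually_all]
      intro i
      rw [eventually_all]
      intro j
      have h1 : Y p₀ q.1 q.2 / 2 < Y p₀ i j := by
        have := hq (i, j)
        have h3 := hpos p₀ q.1 q.2
        simp only at this
        linarith
      have h2 : Y p₀ i j < Y p₀ q'.1 q'.2 + 1 := by
        have := hq' (i, j)
        simp only at this
        linarith
      filter_upwards [(hc i j).continuousAt.eventually_lt_const h2 |>.mono fun _ h => h,
        (hc i j).continuousAt.eventually_const_lt h1] with p h3 h4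
      exact ⟨h4.le, h3.le⟩
    · exact ⟨1, 1, one_pos, Eventually.of_forall fun p i j => (hn ⟨j⟩).elim⟩
  obtain ⟨C, c, hc, hb⟩ := hθ.bdd_sum (m := m) a b ha
  refine continuousAt_of_dominated (bound := fun t => C * Real.exp (-c * ∑ i, t i)) ?_ ?_
    (integrable_exp_orthant _ C c hc) ?_
  · refine Eventually.of_forall fun p => ?_
    refine ContinuousOn.aestronglyMeasurable ?_ (measurableSet_orthant _)
    refine hθ.cont.comp (by fun_prop) fun t ht => pos_sum_smul (hpos p) ht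
  · filter_upwards [hab] with p hp
    exact (ae_restrict_iff' (measurableSet_orthant _)).2 (Eventually.of_forall fun t ht =>
      hb _ hp t ht)
  · refine (ae_restrict_iff' (measurableSet_orthant _)).2 (Eventually.of_forall fun t ht => ?_)
    have h1 : ContinuousAt θ (∑ i, t i • Y p₀ i) :=
      hθ.cont.continuousAt ((isOpen_pos n).mem_nhds (pos_sum_smul (hpos p₀) ht))
    have h2 : ContinuousAt (fun p => ∑ i, t i • Y p i) p₀ := by fun_prop
    exact ContinuousAt.comp (f := fun p => ∑ i, t i • Y p i) h1 h2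

/-- The value on the diagonal. -/
theorem Jint_const (hθ : ThB θ) (y : Fin n → ℝ) (hy : ∀ j, 0 < y j) :
    Jint θ (fun _ : Fin (m + 1) => y) =
      ((m ! : ℕ) : ℂ)⁻¹ * ∫ r in Ioi (0 : ℝ), θ (r • y) * (r : ℂ) ^ m := by
  have h := integral_sum_orthant m (fun r => θ (r • y)) (by
    refine hθ.cont.comp (by fun_prop) fun r hr j => ?_
    exact mul_pos hr (hy j))
  rw [← h, Jint]
  congr 1
  funext t
  rw [Finset.sum_smul]

end

end Pool.Agent.Lib.MP_1a91b9_ntT
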