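import Pool.Agent.Lib.MP_1a91b9_ntT.S2.Key
import Pool.Agent.Lib.MP_1a91b9_ntT.S2.Forms

/-!
# S2, the decay lemma (DOC2 2.2)
-/

set_option autoImplicit false

namespace Pool.Agent.Lib.MP_1a91b9_ntT.S2A

open NumberField MeasureTheory Module

noncomputable section

universe u

variable {F : Type u} [Field F] [NumberField F] [Algebra K F] {n : ℕ}

/-- The matrix of `∑ t_i P_i`. -/
def Hm (σ : Fin n → (F →ₐ[K] ℂ)) {M : ℕ} (P : Fin M → Frm F n) (t : Fin M → ℝ) :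
    Matrix (Fin n) (Fin n) ℂ := ∑ i, (t i : ℂ) • mat σ (P i)

/-- The quadratic form `∑ t_i P_i`. -/
def QQ (σ : Fin n → (F →ₐ[K] ℂ)) {M : ℕ} (P : Fin M → Frm F n) (t : Fin M → ℝ)
    (w : Fin n → ℂ) : ℝ := ∑ i, t i * val σ (P i) w

end

end Pool.Agent.Lib.MP_1a91b9_ntT.S2A

/-!
# Job DEC1
-/

set_option autoImplicit false

namespace Pool.Agent.Lib.MP_1a91b9_ntT.S2A

open NumberField MeasureTheory Module

noncomputable section

universe u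

variable {F : Type u} [Field F] [NumberField F] [Algebra K F] {n : ℕ}

/-- JOB DEC1. (`hm_sum`, `hm_val`) -/
theorem hm_Hm (σ : Fin n → (F →ₐ[K] ℂ)) {M : ℕ} (P : Fin M → Frm F n) (t : Fin M → ℝ)
    (w : Fin n → ℂ) : hm (Hm σ P t) (cj w) w = (QQ σ P t w : ℂ) := by
  unfold Hm QQ
  rw [hm_sum]
  push_cast
  apply Finset.sum_congr rfl
  intro i _
  rw [hm_val]

/-- JOB DEC1. The value of `gg` on real points. -/
theorem gg_iot (σ : Fin n → (F →ₐ[K] ℂ)) {M : ℕ} (P : Fin M → Frm F n) (t : Fin M → ℝ) {q : ℕ}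
    (L : Fin q → (XX n →L[ℂ] ℂ)) (w : Fin n → ℂ) :
    gg (Hm σ P t) L (iot w) = (∏ i, L i (iot w)) * (Real.exp (-QQ σ P t w) : ℂ) := by
  unfold gg
  have h1 : hm (Hm σ P t) (iot w).2 (iot w).1 = (QQ σ P t w : ℂ) := hm_Hm σ P t w
  rw [h1]
  push_cast
  rfl

end

end Pool.Agent.Lib.MP_1a91b9_ntT.S2A

/-!
# Job DEC2
-/

set_option autoImplicit false

namespace Pool.Agent.Lib.MP_1a91b9_ntT.S2A

open NumberField MeasureTheory Module

noncomputable section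

universe u

variable {F : Type u} [Field F] [NumberField F] [Algebra K F] {n : ℕ}

/-- JOB DEC2. The absolute bound.
Proof: on the support `Q(z) ≥ ½ Q(z) + ½ p T ≥ ½ c (x‖z‖)² + ½ p T`, and
`‖gg H L (iot w)‖ = ∏ ‖L i (iot w)‖ exp (-Q) ≤ (Λ‖w‖)^q exp (-Q)`, `‖w‖^q ≤ x^(-q) (1 + x‖w‖)^q`;
`gauss_lat` with `c/2`, `κ = 0`. -/
theorem direct (σ : Fin n → (F →ₐ[K] ℂ)) (hσ : Function.Bijective σ) (D : ℕ) (hD : 0 < D)
    {δ : F → ℂ} (C0 : ℝ) (hδ : ∀ z, ‖δ z‖ ≤ C0 * ind D z) (q : ℕ) (c Λ p : ℝ) (hc : 0 < c)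
    (hΛ : 0 ≤ Λ) :
    ∃ C : ℝ, 0 ≤ C ∧ ∀ x : ℝ, 0 < x → x ≤ 1 → ∀ H : Matrix (Fin n) (Fin n) ℂ,
      (∀ w : Fin n → ℂ, c * (x * ‖w‖) ^ 2 ≤ (hm H (cj w) w).re) → ∀ T : ℝ,
      (∀ z, δ z ≠ 0 → p * T ≤ (hm H (cj (vec σ z)) (vec σ z)).re) →
      ∀ L : Fin q → (XX n →L[ℂ] ℂ), (∀ i, ‖L i‖ ≤ Λ) →
        (Summable fun z => ‖δ z * gg H L (iot (vec σ z))‖) ∧
        ∑' z, ‖δ z * gg H L (iot (vec σ z))‖ ≤ C / x ^ (q + (2 * n + 1)) * Real.exp (-(p / 2) * T) := by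
  obtain ⟨Cg, hCg, hg⟩ := gauss_lat σ hσ D hD (c / 2) 0 (by positivity) q
  have hC0 : 0 ≤ C0 := by
    have h1 := hδ 0
    have h2 : ind D (0 : F) = 1 := by
      unfold ind
      rw [if_pos]
      rw [mul_zero]
      exact isIntegral_zero
    rw [h2, mul_one] at h1
    exact (norm_nonneg _).trans h1
  refine ⟨C0 * Λ ^ q * Cg, by positivity, ?_⟩
  intro x hx hx1 H hH T hT L hL
  obtain ⟨hg1, hg2⟩ := hg x hx hx1
  -- pointwise bound
  have hpt : ∀ z : F, ‖δ z * gg H L (iot (vec σ z))‖ ≤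
      (C0 * Λ ^ q / x ^ q * Real.exp (-(p / 2) * T)) * (ind D z * ((1 + x * ‖vec σ z‖) ^ q *
        Real.exp (-(c / 2) * (x * ‖vec σ z‖) ^ 2 + 0 * (x * ‖vec σ z‖)))) := by
    intro z
    by_cases hz : δ z = 0
    · rw [hz, zero_mul, norm_zero]
      have := ind_nonneg D z
      positivity
    · rw [norm_mul]
      have h1 := hδ z
      have h2 := hT z hz
      have h3 := hH (vec σ z)
      set w := vec σ z with hw
      have hiot : ‖iot w‖ = ‖w‖ := by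
        unfold iot
        rw [Prod.norm_def, norm_cj, max_self]
      have h4 : ‖gg H L (iot w)‖ ≤ (Λ * ‖w‖) ^ q * Real.exp (-(hm H (cj w) w).re) := by
        unfold gg
        rw [norm_mul, Complex.norm_exp, norm_prod]
        have h5 : (-(hm H (iot w).2 (iot w).1)).re = -(hm H (cj w) w).re := by
          simp [iot]
        rw [h5]
        refine mul_le_mul_of_nonneg_right ?_ (Real.exp_pos _).le
        calc ∏ i, ‖L i (iot w)‖ ≤ ∏ i : Fin q, (Λ * ‖w‖) := by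
              refine Finset.prod_le_prod (fun i _ => norm_nonneg _) fun i _ => ?_
              calc ‖L i (iot w)‖ ≤ ‖L i‖ * ‖iot w‖ := (L i).le_opNorm _
                _ ≤ Λ * ‖w‖ := by
                  rw [hiot]
                  exact mul_le_mul_of_nonneg_right (hL i) (norm_nonneg _)
          _ = (Λ * ‖w‖) ^ q := by simp
      have h6 : (Λ * ‖w‖) ^ q ≤ Λ ^ q / x ^ q * (1 + x * ‖w‖) ^ q := by
        have h7 : ‖w‖ ≤ (1 + x * ‖w‖) / x := by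
          rw [le_div_iff₀ hx]
          linarith
        calc (Λ * ‖w‖) ^ q = Λ ^ q * ‖w‖ ^ q := mul_pow _ _ _
          _ ≤ Λ ^ q * ((1 + x * ‖w‖) / x) ^ q := by gcongr
          _ = Λ ^ q / x ^ q * (1 + x * ‖w‖) ^ q := by
            rw [div_pow]
            ring
      have h8 : Real.exp (-(hm H (cj w) w).re) ≤
          Real.exp (-(p / 2) * T) * Real.exp (-(c / 2) * (x * ‖w‖) ^ 2 + 0 * (x * ‖w‖)) := by
        rw [← Real.exp_add, Real.exp_le_exp]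
        linarith
      have hx1w : 0 ≤ 1 + x * ‖w‖ := by positivity
      calc ‖δ z‖ * ‖gg H L (iot w)‖
          ≤ (C0 * ind D z) * ((Λ ^ q / x ^ q * (1 + x * ‖w‖) ^ q) *
            (Real.exp (-(p / 2) * T) * Real.exp (-(c / 2) * (x * ‖w‖) ^ 2 + 0 * (x * ‖w‖)))) := by
            refine mul_le_mul h1 (h4.trans ?_) (norm_nonneg _)
              (mul_nonneg hC0 (ind_nonneg D z))
            exact mul_le_mul h6 h8 (Real.exp_pos _).le (by positivity)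
        _ = _ := by ring
  have hsum := hg1.mul_left (C0 * Λ ^ q / x ^ q * Real.exp (-(p / 2) * T))
  have hs : Summable fun z => ‖δ z * gg H L (iot (vec σ z))‖ :=
    Summable.of_nonneg_of_le (fun z => norm_nonneg _) hpt hsum
  refine ⟨hs, ?_⟩
  refine (hs.tsum_le_tsum hpt hsum).trans ?_
  rw [tsum_mul_left]
  calc _ ≤ (C0 * Λ ^ q / x ^ q * Real.exp (-(p / 2) * T)) * (Cg / x ^ (2 * n + 1)) :=
        mul_le_mul_of_nonneg_left hg2 (by positivity)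
    _ = C0 * Λ ^ q * Cg / x ^ (q + (2 * n + 1)) * Real.exp (-(p / 2) * T) := by
        rw [pow_add x q]
        field_simp

end

end Pool.Agent.Lib.MP_1a91b9_ntT.S2A

/-!
# Job DEC3
-/

set_option autoImplicit false

namespace Pool.Agent.Lib.MP_1a91b9_ntT.S2A

open NumberField MeasureTheory Module

noncomputable section

universe u

variable {F : Type u} [Field F] [NumberField F] [Algebra K F] {n : ℕ}

/-- JOB DEC3. Geometric mean of `key` (with `N = q + (2n+1) + 4k`) and `direct`: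
`‖sum‖² ≤ (C' x^N) (C x^(-(q+2n+1)) exp (-(p/2) T)) = C C' (x^(2k) exp (-(p/4) T))²`. -/
theorem core (σ : Fin n → (F →ₐ[K] ℂ)) (hσ : Function.Bijective σ) (D : ℕ) (hD : 0 < D)
    {δ : F → ℂ} (C0 : ℝ) (hδ : ∀ z, ‖δ z‖ ≤ C0 * ind D z) {r : ℕ} (hr : 0 < r) (a : Fin r → F)
    (hs : ∀ z, ∑ j, δ (z + a j) = 0) (q k : ℕ) (c C Λ p : ℝ) (hc : 0 < c) (hC : 0 ≤ C)
    (hΛ : 0 ≤ Λ) :
    ∃ C' : ℝ, 0 ≤ C' ∧ ∀ x : ℝ, 0 < x → x ≤ 1 → ∀ H : Matrix (Fin n) (Fin n) ℂ,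
      (∀ w : Fin n → ℂ, c * (x * ‖w‖) ^ 2 ≤ (hm H (cj w) w).re) →
      (∀ j w, ‖hm H (cj (vec σ (a j))) w‖ ≤ C * x ^ 2 * ‖w‖ ∧
        ‖hm H w (vec σ (a j))‖ ≤ C * x ^ 2 * ‖w‖) → ∀ T : ℝ,
      (∀ z, δ z ≠ 0 → p * T ≤ (hm H (cj (vec σ z)) (vec σ z)).re) →
      ∀ L : Fin q → (XX n →L[ℂ] ℂ), (∀ i, ‖L i‖ ≤ Λ) →
        ‖∑' z, δ z * gg H L (iot (vec σ z))‖ ≤ C' * x ^ (2 * k) * Real.exp (-(p / 4) * T) := by
  obtain ⟨C1, hC1, h1⟩ := key σ hσ D hD C0 hδ hr a hs q (q + (2 * n + 1) + 4 * k) c C Λ hc hC hΛ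
  obtain ⟨C2, hC2, h2⟩ := direct σ hσ D hD C0 hδ q c Λ p hc hΛ
  refine ⟨Real.sqrt (C1 * C2), Real.sqrt_nonneg _, ?_⟩
  intro x hx hx1 H hH hHa T hT L hL
  have h3 := h1 x hx hx1 H hH hHa L hL
  obtain ⟨h4, h5⟩ := h2 x hx hx1 H hH T hT L hL
  have h6 : ‖∑' z, δ z * gg H L (iot (vec σ z))‖ ≤
      C2 / x ^ (q + (2 * n + 1)) * Real.exp (-(p / 2) * T) :=
    (norm_tsum_le_tsum_norm h4).trans h5
  set A := ‖∑' z, δ z * gg H L (iot (vec σ z))‖ with hA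
  have hA0 : 0 ≤ A := norm_nonneg _
  have h7 : A ^ 2 ≤ (Real.sqrt (C1 * C2) * x ^ (2 * k) * Real.exp (-(p / 4) * T)) ^ 2 := by
    have h8 : A * A ≤ (C1 * x ^ (q + (2 * n + 1) + 4 * k)) *
        (C2 / x ^ (q + (2 * n + 1)) * Real.exp (-(p / 2) * T)) :=
      mul_le_mul h3 h6 hA0 (by positivity)
    have h9 : (C1 * x ^ (q + (2 * n + 1) + 4 * k)) *
        (C2 / x ^ (q + (2 * n + 1)) * Real.exp (-(p / 2) * T)) =
        C1 * C2 * x ^ (4 * k) * Real.exp (-(p / 2) * T) := by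
      rw [pow_add x (q + (2 * n + 1)) (4 * k)]
      have hx0 : x ^ (q + (2 * n + 1)) ≠ 0 := by positivity
      field_simp
    have h10 : (Real.sqrt (C1 * C2) * x ^ (2 * k) * Real.exp (-(p / 4) * T)) ^ 2 =
        C1 * C2 * x ^ (4 * k) * Real.exp (-(p / 2) * T) := by
      rw [mul_pow, mul_pow, Real.sq_sqrt (by positivity), ← pow_mul, ← Real.exp_nat_mul]
      congr 2
      · congr 1
        ring
      · push_cast
        ring
    rw [h10, ← h9, pow_two]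
    exact h8
  exact le_of_sq_le_sq h7 (by positivity)

end

end Pool.Agent.Lib.MP_1a91b9_ntT.S2A

/-!
# Job DEC4
-/

set_option autoImplicit false

namespace Pool.Agent.Lib.MP_1a91b9_ntT.S2A

open NumberField MeasureTheory Module

noncomputable section

universe u

variable {F : Type u} [Field F] [NumberField F] [Algebra K F] {n : ℕ}

/-- JOB DEC4. From `Adm2` to the indicator bound: there are `D > 0` and `C0 ≥ 0` with
`‖δ z‖ ≤ C0 * ind D z`. -/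
theorem adm_ind {δ : F → ℂ} {S : Set F} (hδ : Adm2 δ S) :
    ∃ (D : ℕ) (C0 : ℝ), 0 < D ∧ 0 ≤ C0 ∧ ∀ z, ‖δ z‖ ≤ C0 * ind D z := by
  obtain ⟨C, hC⟩ := hδ.bdd
  obtain ⟨D, hD, hl⟩ := hδ.lat
  refine ⟨D, max C 0, hD, le_max_right _ _, fun z => ?_⟩
  by_cases h : δ z = 0
  · rw [h, norm_zero]
    exact mul_nonneg (le_max_right _ _) (ind_nonneg D z)
  · have e : ind D z = 1 := by
      unfold ind
      rw [if_pos (hl z h)]
    rw [e, mul_one]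
    exact (hC z).trans (le_max_left _ _)

/-- JOB DEC4. The estimate for one set `B ⊆ S` of boundary vectors with a common orthogonal vector:
`hδ.mean B` gives the shifts `a j` with `Tr (v a_j) = 0` for `v ∈ B`; apply `core` with
`C := C₁ * ∑ j, ‖vec σ (a j)‖`. -/
theorem core_B (σ : Fin n → (F →ₐ[K] ℂ)) (hσ : Function.Bijective σ) {δ : F → ℂ} {S : Set F}
    (hδ : Adm2 δ S) (q k : ℕ) (c C₁ Λ p : ℝ) (hc : 0 < c) (hC : 0 ≤ C₁) (hΛ : 0 ≤ Λ)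
    (B : Set F) (hB : B ⊆ S) (α : F) (hα : α ≠ 0) (hBα : ∀ v ∈ B, Algebra.trace K F (v * α) = 0) :
    ∃ C' : ℝ, 0 ≤ C' ∧ ∀ x : ℝ, 0 < x → x ≤ 1 → ∀ H : Matrix (Fin n) (Fin n) ℂ,
      (∀ w : Fin n → ℂ, c * (x * ‖w‖) ^ 2 ≤ (hm H (cj w) w).re) →
      (∀ a : F, (∀ v ∈ B, Algebra.trace K F (v * a) = 0) → ∀ w,
        ‖hm H (cj (vec σ a)) w‖ ≤ C₁ * x ^ 2 * ‖vec σ a‖ * ‖w‖ ∧
        ‖hm H w (vec σ a)‖ ≤ C₁ * x ^ 2 * ‖vec σ a‖ * ‖w‖) → ∀ T : ℝ,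
      (∀ z, δ z ≠ 0 → p * T ≤ (hm H (cj (vec σ z)) (vec σ z)).re) →
      ∀ L : Fin q → (XX n →L[ℂ] ℂ), (∀ i, ‖L i‖ ≤ Λ) →
        ‖∑' z, δ z * gg H L (iot (vec σ z))‖ ≤ C' * x ^ (2 * k) * Real.exp (-(p / 4) * T) := by
  obtain ⟨D, C0, hD, _, hind⟩ := adm_ind hδ
  obtain ⟨r, a, hr, haB, hs⟩ := hδ.mean B hB α hα hBα
  have hsum : 0 ≤ ∑ j, ‖vec σ (a j)‖ := Finset.sum_nonneg fun j _ => norm_nonneg _
  obtain ⟨C', hC', h⟩ := core σ hσ D hD C0 hind hr a hs q k c (C₁ * ∑ j, ‖vec σ (a j)‖) Λ p hc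
    (mul_nonneg hC hsum) hΛ
  refine ⟨C', hC', fun x hx hx1 H hH hHa T hT L hL => ?_⟩
  refine h x hx hx1 H hH (fun j w => ?_) T hT L hL
  have hle : ‖vec σ (a j)‖ ≤ ∑ i, ‖vec σ (a i)‖ :=
    Finset.single_le_sum (f := fun i => ‖vec σ (a i)‖) (fun i _ => norm_nonneg _)
      (Finset.mem_univ j)
  have hb : C₁ * x ^ 2 * ‖vec σ (a j)‖ * ‖w‖ ≤ C₁ * (∑ i, ‖vec σ (a i)‖) * x ^ 2 * ‖w‖ := by
    have h1 : 0 ≤ C₁ * x ^ 2 * ‖w‖ := mul_nonneg (mul_nonneg hC (sq_nonneg x)) (norm_nonneg w)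
    have h2 := mul_le_mul_of_nonneg_left hle h1
    calc C₁ * x ^ 2 * ‖vec σ (a j)‖ * ‖w‖ = C₁ * x ^ 2 * ‖w‖ * ‖vec σ (a j)‖ := by ring
      _ ≤ C₁ * x ^ 2 * ‖w‖ * ∑ i, ‖vec σ (a i)‖ := h2
      _ = C₁ * (∑ i, ‖vec σ (a i)‖) * x ^ 2 * ‖w‖ := by ring
  have hj := hHa (a j) (haB j) w
  exact ⟨hj.1.trans hb, hj.2.trans hb⟩

/-- JOB DEC4. The same with one constant for all such `B` (finitely many subsets of `S`). -/
theorem core_S (σ : Fin n → (F →ₐ[K] ℂ)) (hσ : Function.Bijective σ) {δ : F → ℂ} {S : Set F}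
    (hS : S.Finite) (hδ : Adm2 δ S) (q k : ℕ) (c C₁ Λ p : ℝ) (hc : 0 < c) (hC : 0 ≤ C₁)
    (hΛ : 0 ≤ Λ) :
    ∃ C' : ℝ, 0 ≤ C' ∧ ∀ B : Set F, B ⊆ S → ∀ α : F, α ≠ 0 →
      (∀ v ∈ B, Algebra.trace K F (v * α) = 0) →
      ∀ x : ℝ, 0 < x → x ≤ 1 → ∀ H : Matrix (Fin n) (Fin n) ℂ,
      (∀ w : Fin n → ℂ, c * (x * ‖w‖) ^ 2 ≤ (hm H (cj w) w).re) →
      (∀ a : F, (∀ v ∈ B, Algebra.trace K F (v * a) = 0) → ∀ w,
        ‖hm H (cj (vec σ a)) w‖ ≤ C₁ * x ^ 2 * ‖vec σ a‖ * ‖w‖ ∧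
        ‖hm H w (vec σ a)‖ ≤ C₁ * x ^ 2 * ‖vec σ a‖ * ‖w‖) → ∀ T : ℝ,
      (∀ z, δ z ≠ 0 → p * T ≤ (hm H (cj (vec σ z)) (vec σ z)).re) →
      ∀ L : Fin q → (XX n →L[ℂ] ℂ), (∀ i, ‖L i‖ ≤ Λ) →
        ‖∑' z, δ z * gg H L (iot (vec σ z))‖ ≤ C' * x ^ (2 * k) * Real.exp (-(p / 4) * T) := by
  classical
  have hex : ∀ B : Set F, ∃ C' : ℝ, 0 ≤ C' ∧ (B ⊆ S → ∀ α : F, α ≠ 0 →
      (∀ v ∈ B, Algebra.trace K F (v * α) = 0) →
      ∀ x : ℝ, 0 < x → x ≤ 1 → ∀ H : Matrix (Fin n) (Fin n) ℂ,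
      (∀ w : Fin n → ℂ, c * (x * ‖w‖) ^ 2 ≤ (hm H (cj w) w).re) →
      (∀ a : F, (∀ v ∈ B, Algebra.trace K F (v * a) = 0) → ∀ w,
        ‖hm H (cj (vec σ a)) w‖ ≤ C₁ * x ^ 2 * ‖vec σ a‖ * ‖w‖ ∧
        ‖hm H w (vec σ a)‖ ≤ C₁ * x ^ 2 * ‖vec σ a‖ * ‖w‖) → ∀ T : ℝ,
      (∀ z, δ z ≠ 0 → p * T ≤ (hm H (cj (vec σ z)) (vec σ z)).re) →
      ∀ L : Fin q → (XX n →L[ℂ] ℂ), (∀ i, ‖L i‖ ≤ Λ) →
        ‖∑' z, δ z * gg H L (iot (vec σ z))‖ ≤ C' * x ^ (2 * k) * Real.exp (-(p / 4) * T)) := by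
    intro B
    by_cases hB : B ⊆ S ∧ ∃ α : F, α ≠ 0 ∧ ∀ v ∈ B, Algebra.trace K F (v * α) = 0
    · obtain ⟨hBS, α, hα, hBα⟩ := hB
      obtain ⟨C', hC', h⟩ := core_B σ hσ hδ q k c C₁ Λ p hc hC hΛ B hBS α hα hBα
      exact ⟨C', hC', fun _ _ _ _ => h⟩
    · exact ⟨0, le_rfl, fun h1 α h2 h3 => absurd ⟨h1, α, h2, h3⟩ hB⟩
  choose f hf0 hf using hex
  have hfin : {B : Set F | B ⊆ S}.Finite := hS.finite_subsets
  refine ⟨∑ B ∈ hfin.toFinset, f B, Finset.sum_nonneg fun B _ => hf0 B, ?_⟩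
  intro B hB α hα hBα x hx hx1 H hH hHa T hT L hL
  have hle : f B ≤ ∑ B ∈ hfin.toFinset, f B :=
    Finset.single_le_sum (f := f) (fun i _ => hf0 i) (hfin.mem_toFinset.2 hB)
  refine (hf B hB α hα hBα x hx hx1 H hH hHa T hT L hL).trans ?_
  have h1 : 0 ≤ x ^ (2 * k) * Real.exp (-(p / 4) * T) :=
    mul_nonneg (pow_nonneg hx.le _) (Real.exp_pos _).le
  calc f B * x ^ (2 * k) * Real.exp (-(p / 4) * T)
      = f B * (x ^ (2 * k) * Real.exp (-(p / 4) * T)) := by ring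
    _ ≤ (∑ B ∈ hfin.toFinset, f B) * (x ^ (2 * k) * Real.exp (-(p / 4) * T)) :=
        mul_le_mul_of_nonneg_right hle h1
    _ = (∑ B ∈ hfin.toFinset, f B) * x ^ (2 * k) * Real.exp (-(p / 4) * T) := by ring

end

end Pool.Agent.Lib.MP_1a91b9_ntT.S2A

/-!
# Job DEC5
-/

set_option autoImplicit false

namespace Pool.Agent.Lib.MP_1a91b9_ntT.S2A

open NumberField MeasureTheory Module

noncomputable section

universe u

variable {F : Type u} [Field F] [NumberField F] [Algebra K F] {n : ℕ}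

/-- The quadratic form is bounded below by the forms with `t i ≥ t i₀`. -/
private theorem dec_lower (σ : Fin n → (F →ₐ[K] ℂ)) {S : Set F} {a b c : ℝ} (ha : 0 < a)
    {M : ℕ} (P : Fin M → Frm F n) (hP : ∀ i, OkB S a b (P i)) (t : Fin M → ℝ)
    (ht : ∀ i, 0 < t i) (i₀ : Fin M) (w : Fin n → ℂ)
    (h : c * ‖w‖ ^ 2 ≤ ∑ i ∈ Finset.univ.filter (fun i => t i₀ ≤ t i), val σ (P i) w) :
    c * (t i₀ * ‖w‖ ^ 2) ≤ QQ σ P t w := by
  have h0 : 0 < t i₀ := ht i₀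
  have h1 : t i₀ * (∑ i ∈ Finset.univ.filter (fun i => t i₀ ≤ t i), val σ (P i) w) ≤
      ∑ i ∈ Finset.univ.filter (fun i => t i₀ ≤ t i), t i * val σ (P i) w := by
    rw [Finset.mul_sum]
    refine Finset.sum_le_sum fun i hi => ?_
    exact mul_le_mul_of_nonneg_right (Finset.mem_filter.1 hi).2 (val_nonneg σ ha.le (hP i) w)
  have h2 : ∑ i ∈ Finset.univ.filter (fun i => t i₀ ≤ t i), t i * val σ (P i) w ≤
      QQ σ P t w := by
    refine Finset.sum_le_sum_of_subset_of_nonneg (Finset.filter_subset _ _) fun i _ _ => ?_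
    exact mul_nonneg (ht i).le (val_nonneg σ ha.le (hP i) w)
  calc c * (t i₀ * ‖w‖ ^ 2) = t i₀ * (c * ‖w‖ ^ 2) := by ring
    _ ≤ t i₀ * (∑ i ∈ Finset.univ.filter (fun i => t i₀ ≤ t i), val σ (P i) w) :=
        mul_le_mul_of_nonneg_left h h0.le
    _ ≤ _ := h1.trans h2

/-- The bound for one matrix with bounded entries. -/
private theorem dec_hm_le (H : Matrix (Fin n) (Fin n) ℂ) (B : ℝ) (hH : ∀ j k, ‖H j k‖ ≤ B)
    (x y : Fin n → ℂ) : ‖hm H x y‖ ≤ ((n : ℝ) * (n * B)) * ‖x‖ * ‖y‖ := by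
  refine (norm_hm_le H x y).trans ?_
  have h : (∑ j, ∑ k, ‖H j k‖) ≤ (n : ℝ) * (n * B) := by
    calc (∑ j, ∑ k, ‖H j k‖) ≤ ∑ _j : Fin n, ∑ _k : Fin n, B :=
          Finset.sum_le_sum fun j _ => Finset.sum_le_sum fun k _ => hH j k
      _ = (n : ℝ) * (n * B) := by simp
  exact mul_le_mul_of_nonneg_right (mul_le_mul_of_nonneg_right h (norm_nonneg _)) (norm_nonneg _)

/-- The bilinear form of `∑ t_i P_i` at vectors at which the forms with large `t_i` vanish. -/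
private theorem dec_upper (σ : Fin n → (F →ₐ[K] ℂ)) {S : Set F} {a b B : ℝ} (hB : 0 ≤ B)
    (hmB : ∀ P : Frm F n, OkB S a b P → ∀ j k, ‖mat σ P j k‖ ≤ B)
    {M : ℕ} (P : Fin M → Frm F n) (hP : ∀ i, OkB S a b (P i)) (t : Fin M → ℝ)
    (ht : ∀ i, 0 < t i) (i₀ : Fin M) (x y : Fin n → ℂ)
    (h : ∀ i, t i₀ < t i → hm (mat σ (P i)) x y = 0) :
    ‖hm (Hm σ P t) x y‖ ≤ ((M : ℝ) * ((n : ℝ) * (n * B))) * t i₀ * ‖x‖ * ‖y‖ := by
  have h0 : 0 < t i₀ := ht i₀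
  have hn0 : (0 : ℝ) ≤ (n : ℝ) * (n * B) := by positivity
  unfold Hm
  rw [hm_sum]
  refine (norm_sum_le _ _).trans ?_
  have h1 : ∀ i ∈ (Finset.univ : Finset (Fin M)), ‖(t i : ℂ) * hm (mat σ (P i)) x y‖ ≤
      ((n : ℝ) * (n * B)) * t i₀ * ‖x‖ * ‖y‖ := by
    intro i _
    rcases lt_or_ge (t i₀) (t i) with hi | hi
    · rw [h i hi]
      simp only [mul_zero, norm_zero]
      positivity
    · rw [norm_mul, Complex.norm_real, Real.norm_of_nonneg (ht i).le]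
      calc t i * ‖hm (mat σ (P i)) x y‖ ≤ t i₀ * (((n : ℝ) * (n * B)) * ‖x‖ * ‖y‖) :=
            mul_le_mul hi (dec_hm_le _ B (hmB _ (hP i)) x y) (norm_nonneg _) h0.le
        _ = _ := by ring
  refine (Finset.sum_le_sum h1).trans (le_of_eq ?_)
  simp only [Finset.sum_const, Finset.card_univ, Fintype.card_fin, nsmul_eq_mul]
  ring

/-- JOB DEC5. THE DECAY LEMMA (DOC2 2.2).
Proof: constants `B` (`mat_bound`), `c` (`full_lower`), `p` (`gap`).  `exists_cut` gives `i₀`;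
`l = t i₀`; `J = {i | t i₀ < t i}` is not full, `not_full` gives `α` and `P i = bd v_i`,
`Tr (v_i α) = 0` for `i ∈ J`; `Bset = {v | ∃ i ∈ J, P i = bd v}`.  With `T = ∑ t i`:
on the support `QQ ≥ p T` (`gap`), and `QQ w ≥ l ∑_{t i ≥ l} val ≥ c l ‖w‖²`.
If `l ≤ 1`: `x = √l`; `core_S` with `C₁ = M n² B`: for `a` orthogonal to `Bset`
`hm (Hm σ P t) (cj (vec σ a)) w = ∑_{i ∉ J} t_i hm (mat (P i)) …` (`hm_orth` for `i ∈ J`),
`t_i ≤ l = x²`, `norm_hm_le`.  `x^(2k) = l^k`.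
If `l > 1`: `direct` with `x = 1`, and `1 ≤ l^k`.  Take the maximum of the constants, `c' = p / 4`. -/
theorem decay (σ : Fin n → (F →ₐ[K] ℂ)) (hσ : Function.Bijective σ) {δ : F → ℂ} {S : Set F}
    (hS : S.Finite) (hδ : Adm2 δ S) (a b : ℝ) (ha : 0 < a) (q k M : ℕ) (Λ : ℝ) (hΛ : 0 ≤ Λ) :
    ∃ C c : ℝ, 0 ≤ C ∧ 0 < c ∧ ∀ P : Fin M → Frm F n, (∀ i, OkB S a b (P i)) →
      FullOn σ P Finset.univ → ∀ L : Fin q → (XX n →L[ℂ] ℂ), (∀ i, ‖L i‖ ≤ Λ) →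
      ∀ t : Fin M → ℝ, (∀ i, 0 < t i) → ∃ i₀,
        ‖∑' z, δ z * gg (Hm σ P t) L (iot (vec σ z))‖ ≤ C * t i₀ ^ k * Real.exp (-c * ∑ i, t i) := by
  obtain ⟨B, hB, hmB⟩ := mat_bound σ hS a b ha.le
  obtain ⟨c, hc, hfull⟩ := full_lower σ hS a b ha
  obtain ⟨p, hp, hgap⟩ := gap σ hσ hS hδ a b ha
  obtain ⟨D, C0, hD, _, hind⟩ := adm_ind hδ
  have hn : 1 ≤ n := one_le_n σ hσ
  have hC₁ : (0 : ℝ) ≤ (M : ℝ) * ((n : ℝ) * (n * B)) := by positivity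
  obtain ⟨C1, hC1, hcore⟩ := core_S σ hσ hS hδ q k c ((M : ℝ) * ((n : ℝ) * (n * B))) Λ p hc hC₁ hΛ
  obtain ⟨C2, hC2, hdir⟩ := direct σ hσ D hD C0 hind q c Λ p hc hΛ
  refine ⟨C1 + C2, p / 4, by positivity, by positivity, fun P hP hF L hL t ht => ?_⟩
  obtain ⟨i₀, hi1, hi2⟩ := exists_cut σ hn P hF t
  refine ⟨i₀, ?_⟩
  have h0 : 0 < t i₀ := ht i₀
  have hT : 0 ≤ ∑ i, t i := Finset.sum_nonneg fun i _ => (ht i).le
  have hlow : ∀ w : Fin n → ℂ, c * (t i₀ * ‖w‖ ^ 2) ≤ (hm (Hm σ P t) (cj w) w).re := by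
    intro w
    rw [hm_Hm, Complex.ofReal_re]
    exact dec_lower σ ha P hP t ht i₀ w (hfull M P _ (fun i _ => hP i) hi1 w)
  have hsup : ∀ z, δ z ≠ 0 → p * (∑ i, t i) ≤ (hm (Hm σ P t) (cj (vec σ z)) (vec σ z)).re := by
    intro z hz
    rw [hm_Hm, Complex.ofReal_re, QQ, Finset.mul_sum]
    refine Finset.sum_le_sum fun i _ => ?_
    rw [mul_comm p]
    exact mul_le_mul_of_nonneg_left (hgap (P i) (hP i) z hz) (ht i).le
  have hexp : (0 : ℝ) < Real.exp (-(p / 4) * ∑ i, t i) := Real.exp_pos _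
  rcases le_or_gt (t i₀) 1 with hl | hl
  · -- small `l`
    obtain ⟨α, hα, hJ⟩ := not_full σ hσ ha P _ (fun i _ => hP i) hi2
    have hx0 : 0 < √(t i₀) := Real.sqrt_pos.2 h0
    have hx1 : √(t i₀) ≤ 1 := Real.sqrt_le_one.2 hl
    have hxx : √(t i₀) ^ 2 = t i₀ := Real.sq_sqrt h0.le
    have key := hcore {v | v ∈ S ∧ Algebra.trace K F (v * α) = 0 ∧ ∃ i, t i₀ < t i ∧ P i = .bd v}
      (fun v hv => hv.1) α hα (fun v hv => hv.2.1) (√(t i₀)) hx0 hx1 (Hm σ P t)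
      (fun w => by
        have := hlow w
        rwa [mul_pow, hxx])
      (fun a' ha' w => by
        have hz : ∀ i, t i₀ < t i → ∃ v, P i = .bd v ∧ Algebra.trace K F (v * a') = 0 := by
          intro i hi
          obtain ⟨v, hvS, hPv, hvα⟩ := hJ i (Finset.mem_filter.2 ⟨Finset.mem_univ _, hi⟩)
          exact ⟨v, hPv, ha' v ⟨hvS, hvα, i, hi, hPv⟩⟩
        rw [hxx]
        constructor
        · have := dec_upper σ hB hmB P hP t ht i₀ (cj (vec σ a')) w (fun i hi => by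
            obtain ⟨v, hPv, hv⟩ := hz i hi
            rw [hPv]
            exact (hm_orth σ hσ v a' hv w).1)
          rwa [norm_cj] at this
        · have := dec_upper σ hB hmB P hP t ht i₀ w (vec σ a') (fun i hi => by
            obtain ⟨v, hPv, hv⟩ := hz i hi
            rw [hPv]
            exact (hm_orth σ hσ v a' hv w).2)
          refine this.trans (le_of_eq ?_)
          ring)
      (∑ i, t i) hsup L hL
    rw [pow_mul, hxx] at key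
    refine key.trans ?_
    refine mul_le_mul_of_nonneg_right ?_ hexp.le
    refine mul_le_mul_of_nonneg_right ?_ (by positivity)
    linarith
  · -- large `l`
    obtain ⟨hs, hb⟩ := hdir 1 one_pos le_rfl (Hm σ P t)
      (fun w => by
        refine le_trans ?_ (hlow w)
        refine mul_le_mul_of_nonneg_left ?_ hc.le
        rw [one_mul]
        have : 0 ≤ ‖w‖ ^ 2 := by positivity
        nlinarith)
      (∑ i, t i) hsup L hL
    have h1 : ‖∑' z, δ z * gg (Hm σ P t) L (iot (vec σ z))‖ ≤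
        ∑' z, ‖δ z * gg (Hm σ P t) L (iot (vec σ z))‖ := norm_tsum_le_tsum_norm hs
    refine h1.trans (hb.trans ?_)
    have h2 : C2 / 1 ^ (q + (2 * n + 1)) = C2 := by simp
    rw [h2]
    have h3 : C2 ≤ (C1 + C2) * t i₀ ^ k := by
      have h4 : 1 ≤ t i₀ ^ k := one_le_pow₀ hl.le
      nlinarith
    refine mul_le_mul h3 ?_ (Real.exp_pos _).le (by positivity)
    refine Real.exp_le_exp.2 ?_
    nlinarith
  
end

end Pool.Agent.Lib.MP_1a91b9_ntT.S2A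

/-!
# Job DEC6
-/

set_option autoImplicit false

namespace Pool.Agent.Lib.MP_1a91b9_ntT.S2A

open NumberField MeasureTheory Module

noncomputable section

universe u

variable {F : Type u} [Field F] [NumberField F] [Algebra K F] {n : ℕ}

/-- JOB DEC6. Consequence for `k = 0`. -/
theorem decay_zero (σ : Fin n → (F →ₐ[K] ℂ)) (hσ : Function.Bijective σ) {δ : F → ℂ} {S : Set F}
    (hS : S.Finite) (hδ : Adm2 δ S) (a b : ℝ) (ha : 0 < a) (q M : ℕ) (Λ : ℝ) (hΛ : 0 ≤ Λ) :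
    ∃ C c : ℝ, 0 ≤ C ∧ 0 < c ∧ ∀ P : Fin M → Frm F n, (∀ i, OkB S a b (P i)) →
      FullOn σ P Finset.univ → ∀ L : Fin q → (XX n →L[ℂ] ℂ), (∀ i, ‖L i‖ ≤ Λ) →
      ∀ t : Fin M → ℝ, (∀ i, 0 < t i) →
        ‖∑' z, δ z * gg (Hm σ P t) L (iot (vec σ z))‖ ≤ C * Real.exp (-c * ∑ i, t i) := by
  obtain ⟨C, c, hC, hc, h⟩ := decay σ hσ hS hδ a b ha q 0 M Λ hΛ
  refine ⟨C, c, hC, hc, fun P hP hF L hL t ht => ?_⟩
  obtain ⟨i₀, h⟩ := h P hP hF L hL t ht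
  simpa using h

private theorem dec6_QQ_nonneg (σ : Fin n → (F →ₐ[K] ℂ)) {S : Set F} {a b : ℝ} (ha : 0 ≤ a) {M : ℕ}
    (P : Fin M → Frm F n) (hP : ∀ i, OkB S a b (P i)) (t : Fin M → ℝ) (ht : ∀ i, 0 ≤ t i)
    (w : Fin n → ℂ) : 0 ≤ QQ σ P t w :=
  Finset.sum_nonneg fun i _ => mul_nonneg (ht i) (val_nonneg σ ha (hP i) w)

private theorem dec6_QQ_mono (σ : Fin n → (F →ₐ[K] ℂ)) {S : Set F} {a b : ℝ} (ha : 0 ≤ a) {M : ℕ}
    (P : Fin M → Frm F n) (hP : ∀ i, OkB S a b (P i)) (t t' : Fin M → ℝ) (ht : ∀ i, t' i ≤ t i)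
    (w : Fin n → ℂ) : QQ σ P t' w ≤ QQ σ P t w :=
  Finset.sum_le_sum fun i _ => mul_le_mul_of_nonneg_right (ht i) (val_nonneg σ ha (hP i) w)

/-- JOB DEC6. Absolute convergence for every full family and `t > 0`: `direct` with
`x = min 1 √(min t)`, `p = 0` (or any `p`), `T = 0`. -/
theorem summable_gg (σ : Fin n → (F →ₐ[K] ℂ)) (hσ : Function.Bijective σ) {δ : F → ℂ} {S : Set F}
    (hS : S.Finite) (hδ : Adm2 δ S) (q M : ℕ) (P : Fin M → Frm F n) (hP : ∀ i, Ok S (P i))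
    (hF : FullOn σ P Finset.univ) (L : Fin q → (XX n →L[ℂ] ℂ)) (t : Fin M → ℝ)
    (ht : ∀ i, 0 < t i) : Summable fun z => ‖δ z * gg (Hm σ P t) L (iot (vec σ z))‖ := by
  obtain ⟨C, hC⟩ := hδ.bdd
  obtain ⟨D, hD, hlat⟩ := hδ.lat
  obtain ⟨a, b, ha, hPB⟩ := exists_okB P hP
  obtain ⟨c, hc, hfull⟩ := full_lower σ hS a b ha
  have hfl := hfull M P Finset.univ (fun i _ => hPB i) hF
  have hδ' : ∀ z, ‖δ z‖ ≤ C * ind D z := by
    intro z
    by_cases hz : δ z = 0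
    · rw [hz, norm_zero]
      have h0 : 0 ≤ C := (norm_nonneg _).trans (hC 0)
      exact mul_nonneg h0 (ind_nonneg D z)
    · have h1 : ind D z = 1 := by
        unfold ind
        rw [if_pos (hlat z hz)]
      rw [h1, mul_one]
      exact hC z
  obtain ⟨ε, hε, hεt⟩ : ∃ ε : ℝ, 0 < ε ∧ ∀ i, ε ≤ t i := by
    rcases isEmpty_or_nonempty (Fin M) with h | h
    · exact ⟨1, one_pos, fun i => h.elim i⟩
    · obtain ⟨i, hi⟩ := Finite.exists_min t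
      exact ⟨t i, ht i, hi⟩
  have hx0 : 0 < min 1 ε := lt_min one_pos hε
  have hx1 : min 1 ε ≤ 1 := min_le_left _ _
  have hx2 : (min 1 ε) ^ 2 ≤ ε := by
    calc (min 1 ε) ^ 2 = (min 1 ε) * (min 1 ε) := pow_two _
      _ ≤ 1 * ε := mul_le_mul hx1 (min_le_right _ _) hx0.le one_pos.le
      _ = ε := one_mul ε
  obtain ⟨B, _, hB⟩ := direct σ hσ D hD C hδ' q c (∑ i, ‖L i‖) 0 hc
    (Finset.sum_nonneg fun i _ => norm_nonneg _)
  refine (hB (min 1 ε) hx0 hx1 (Hm σ P t) ?_ 0 ?_ L ?_).1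
  · intro w
    rw [hm_Hm, Complex.ofReal_re]
    have h1 : QQ σ P (fun _ => (min 1 ε) ^ 2) w ≤ QQ σ P t w :=
      dec6_QQ_mono σ ha.le P hPB _ _ (fun i => hx2.trans (hεt i)) w
    have h2 : QQ σ P (fun _ => (min 1 ε) ^ 2) w = (min 1 ε) ^ 2 * ∑ i, val σ (P i) w := by
      rw [QQ, Finset.mul_sum]
    rw [h2] at h1
    refine le_trans ?_ h1
    have h3 := mul_le_mul_of_nonneg_left (hfl w) (sq_nonneg (min 1 ε))
    refine le_trans (le_of_eq ?_) h3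
    ring
  · intro z _
    rw [hm_Hm, Complex.ofReal_re, zero_mul]
    exact dec6_QQ_nonneg σ ha.le P hPB t (fun i => (ht i).le) _
  · intro i
    exact Finset.single_le_sum (f := fun i => ‖L i‖) (fun j _ => norm_nonneg _) (Finset.mem_univ i)

/-- JOB DEC6. Continuity in `t`: locally (`t i ≥ ε`) the terms are bounded by the summable
sequence of `summable_gg` at the constant vector `ε` (the values are nonnegative):
`continuousOn_tsum`. -/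
theorem continuousOn_gg (σ : Fin n → (F →ₐ[K] ℂ)) (hσ : Function.Bijective σ) {δ : F → ℂ}
    {S : Set F} (hS : S.Finite) (hδ : Adm2 δ S) (q M : ℕ) (P : Fin M → Frm F n)
    (hP : ∀ i, Ok S (P i)) (hF : FullOn σ P Finset.univ) (L : Fin q → (XX n →L[ℂ] ℂ)) :
    ContinuousOn (fun t : Fin M → ℝ => ∑' z, δ z * gg (Hm σ P t) L (iot (vec σ z)))
      (Set.univ.pi fun _ => Set.Ioi (0 : ℝ)) := by
  obtain ⟨a, b, ha, hPB⟩ := exists_okB P hP
  intro t0 ht0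
  have ht0' : ∀ i, 0 < t0 i := fun i => ht0 i (Set.mem_univ i)
  have hs := summable_gg σ hσ hS hδ q M P hP hF L (fun i => t0 i / 2) (fun i => half_pos (ht0' i))
  have hU : (Set.univ.pi fun i => Set.Ioi (t0 i / 2)) ∈ nhds t0 := by
    refine (isOpen_set_pi Set.finite_univ fun i _ => isOpen_Ioi).mem_nhds ?_
    intro i _
    exact half_lt_self (ht0' i)
  have hcont : ContinuousOn (fun t : Fin M → ℝ => ∑' z, δ z * gg (Hm σ P t) L (iot (vec σ z)))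
      (Set.univ.pi fun i => Set.Ioi (t0 i / 2)) := by
    refine continuousOn_tsum (u := fun z => ‖δ z * gg (Hm σ P (fun i => t0 i / 2)) L (iot (vec σ z))‖)
      ?_ hs ?_
    · intro z
      have h1 : (fun t : Fin M → ℝ => δ z * gg (Hm σ P t) L (iot (vec σ z))) =
          fun t => δ z * ((∏ i, L i (iot (vec σ z))) * (Real.exp (-QQ σ P t (vec σ z)) : ℂ)) := by
        funext t
        rw [gg_iot]
      rw [h1]
      have h2 : Continuous fun t : Fin M → ℝ => QQ σ P t (vec σ z) := by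
        unfold QQ
        fun_prop
      have h3 : Continuous fun t : Fin M → ℝ =>
          δ z * ((∏ i, L i (iot (vec σ z))) * (Real.exp (-QQ σ P t (vec σ z)) : ℂ)) := by
        fun_prop
      exact h3.continuousOn
    · intro z t ht
      have h1 : QQ σ P (fun i => t0 i / 2) (vec σ z) ≤ QQ σ P t (vec σ z) :=
        dec6_QQ_mono σ ha.le P hPB _ _ (fun i => (ht i (Set.mem_univ i)).le) _
      rw [gg_iot, gg_iot, norm_mul, norm_mul, norm_mul, norm_mul, Complex.norm_real, Complex.norm_real,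
        Real.norm_of_nonneg (Real.exp_pos _).le, Real.norm_of_nonneg (Real.exp_pos _).le]
      have h2 : Real.exp (-QQ σ P t (vec σ z)) ≤ Real.exp (-QQ σ P (fun i => t0 i / 2) (vec σ z)) :=
        Real.exp_le_exp.2 (neg_le_neg h1)
      exact mul_le_mul_of_nonneg_left (mul_le_mul_of_nonneg_left h2 (norm_nonneg _)) (norm_nonneg _)
  exact (hcont.continuousAt hU).continuousWithinAt

end

end Pool.Agent.Lib.MP_1a91b9_ntT.S2A
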