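import Pool.Agent.Lib.MP_1a91b9_ntT.S6.NFa

/-!
# S2 / H0: forms (DOC2 2.0)
-/

set_option autoImplicit false
set_option linter.unusedSectionVars false

namespace Pool.Agent.Lib.MP_1a91b9_ntT

open NumberField

noncomputable section

universe u

variable {F : Type u} [Field F] [NumberField F] [Algebra K F] {n : ℕ}

/-- The allowed forms. -/
def OkF (S : Set F) : Frm F n → Prop
  | .dg y => ∀ j, 0 < y j
  | .bd v => v ∈ S

/-- A full family of forms. -/
def Full (σ : Fin n → (F →ₐ[K] ℂ)) {ι : Type*} (P : ι → Frm F n) : Prop :=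
  ∀ w : Fin n → ℂ, w ≠ 0 → ∃ i, 0 < val σ (P i) w

/-- The determinant of the rows of `n` forms. -/
def dtF (σ : Fin n → (F →ₐ[K] ℂ)) (P : Fin n → Frm F n) (w : Fin n → ℂ) : ℂ :=
  (Matrix.of fun i j => row σ (P i) w j).det

/-- The quadratic form of a family. -/
def Qf (σ : Fin n → (F →ₐ[K] ℂ)) {k : ℕ} (P : Fin k → Frm F n) (t : Fin k → ℝ)
    (w : Fin n → ℂ) : ℝ := ∑ i, t i * val σ (P i) w

/-- The integrand of `I2`. -/
def TiF (σ : Fin n → (F →ₐ[K] ℂ)) (δ : F → ℂ) (P : Fin n → Frm F n) (t : Fin n → ℝ) : ℂ :=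
  ∑' z : F, δ z * dtF σ P (vec σ z) * Real.exp (-Qf σ P t (vec σ z))

theorem I2_eq (σ : Fin n → (F →ₐ[K] ℂ)) (δ : F → ℂ) (P : Fin n → Frm F n) :
    I2 σ δ P = ∫ t in Set.univ.pi (fun _ : Fin n => Set.Ioi (0 : ℝ)), TiF σ δ P t := rfl

variable (σ : Fin n → (F →ₐ[K] ℂ))

theorem val_nonneg {S : Set F} (P : Frm F n) (hP : OkF S P) (w : Fin n → ℂ) : 0 ≤ val σ P w := by
  cases P with
  | dg y => exact Finset.sum_nonneg fun j _ => mul_nonneg (hP j).le (sq_nonneg _)
  | bd v => exact sq_nonneg _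

/-- A diagonal form is positive. -/
theorem val_dg_pos {S : Set F} (y : Fin n → ℝ) (hP : OkF S (Frm.dg y : Frm F n)) (w : Fin n → ℂ)
    (hw : w ≠ 0) : 0 < val σ (Frm.dg y) w := by
  obtain ⟨j, hj⟩ : ∃ j, w j ≠ 0 := by
    by_contra h
    push Not at h
    exact hw (funext h)
  refine Finset.sum_pos' (fun i _ => mul_nonneg (hP i).le (sq_nonneg _)) ⟨j, Finset.mem_univ _, ?_⟩
  have := norm_pos_iff.2 hj
  have h2 := hP j
  positivity

theorem row_dot (P : Frm F n) (w : Fin n → ℂ) : ∑ j, row σ P w j * w j = (val σ P w : ℂ) := by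
  cases P with
  | dg y =>
    simp only [row, val]
    push_cast
    refine Finset.sum_congr rfl fun j _ => ?_
    rw [mul_assoc, mul_comm ((starRingEnd ℂ) (w j)), Complex.mul_conj, Complex.normSq_eq_norm_sq]
    push_cast
    ring
  | bd v =>
    simp only [row, val]
    simp_rw [mul_assoc]
    rw [← Finset.mul_sum, ← lin, mul_comm, Complex.mul_conj, Complex.normSq_eq_norm_sq]

/-- The trace in terms of the embeddings. -/
theorem lin_vec (hσ : Function.Bijective σ) (v z : F) :
    lin σ v (vec σ z) = embK (Algebra.trace K F (v * z)) := by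
  have := nfa_finite (F := F)
  rw [← algebraMap_eq, trace_eq_sum_embeddings ℂ]
  rw [← Fintype.sum_bijective σ hσ (fun j => σ j (v * z)) _ fun _ => rfl]
  simp [lin, vec]

theorem val_bd (hσ : Function.Bijective σ) (v z : F) :
    val σ (Frm.bd v) (vec σ z) = ‖embK (Algebra.trace K F (v * z))‖ ^ 2 := by
  rw [val, lin_vec σ hσ]

theorem vec_ne (_hσ : Function.Bijective σ) (hn : 0 < n) (z : F) (hz : z ≠ 0) : vec σ z ≠ 0 := by
  intro h
  have := congrFun h ⟨0, hn⟩
  simp only [vec, Pi.zero_apply, map_eq_zero] at this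
  exact hz this

/-- On the support of `δ` all the allowed forms are positive. -/
theorem val_pos (hσ : Function.Bijective σ) (hn : 0 < n) {δ : F → ℂ} {S : Set F} (hδ : Adm2 δ S)
    (P : Frm F n) (hP : OkF S P) (z : F) (hz : δ z ≠ 0) : 0 < val σ P (vec σ z) := by
  have hz0 : z ≠ 0 := by
    rintro rfl
    exact hz hδ.zero
  cases P with
  | dg y => exact val_dg_pos σ y hP _ (vec_ne σ hσ hn z hz0)
  | bd v =>
    rw [val_bd σ hσ]
    have h := (hδ.ne v hP).2 z hz
    have h2 : embK (Algebra.trace K F (v * z)) ≠ 0 := by simpa using h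
    have := norm_pos_iff.2 h2
    positivity

theorem dtF_bd (v : Fin n → F) (w : Fin n → ℂ) :
    dtF σ (fun i => Frm.bd (v i)) w =
      (∏ i, (starRingEnd ℂ) (lin σ (v i) w)) * (Matrix.of fun i j => σ j (v i)).det := by
  have h : (Matrix.of fun i j => row σ (Frm.bd (v i)) w j) =
      Matrix.of fun i j => (starRingEnd ℂ) (lin σ (v i) w) * (Matrix.of fun i j => σ j (v i)) i j :=
    rfl
  rw [dtF, h, Matrix.det_mul_column]

theorem dtF_dg (y : Fin n → Fin n → ℝ) (w : Fin n → ℂ) :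
    dtF σ (fun i => (Frm.dg (y i) : Frm F n)) w =
      (∏ j, (starRingEnd ℂ) (w j)) * ((Matrix.of fun i j => y i j).det : ℝ) := by
  have h : (Matrix.of fun i j => row σ (Frm.dg (y i) : Frm F n) w j) =
      Matrix.of fun i j => (starRingEnd ℂ) (w j) * (Matrix.of fun i j => (y i j : ℂ)) i j := by
    ext i j
    simp [row, mul_comm]
  rw [dtF, h, Matrix.det_mul_row]
  congr 1
  have h2 : (Matrix.of fun i j => (y i j : ℂ)) =
      (Matrix.of fun i j => y i j : Matrix (Fin n) (Fin n) ℝ).map (algebraMap ℝ ℂ) := rfl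
  rw [h2, ← RingHom.mapMatrix_apply, ← RingHom.map_det]
  rfl

/-- DOC2 2.0.1. -/
theorem dtF_not_full {S : Set F} (P : Fin n → Frm F n) (hP : ∀ i, OkF S (P i))
    (h : ¬ Full σ P) (w : Fin n → ℂ) : dtF σ P w = 0 := by
  simp only [Full, not_forall, not_exists, not_lt] at h
  obtain ⟨a, ha, h⟩ := h
  have h1 : ∀ i, ∑ j, row σ (P i) w j * a j = 0 := by
    intro i
    have h2 := h i
    have h3 := hP i
    revert h2 h3
    cases P i with
    | dg y =>
      intro h2 h3
      exact absurd (val_dg_pos σ y h3 a ha) (not_lt.2 h2)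
    | bd v =>
      intro h2 _
      have h4 : lin σ v a = 0 := by
        simp only [val] at h2
        have h5 : ‖lin σ v a‖ ^ 2 = 0 := le_antisymm h2 (sq_nonneg _)
        simpa using h5
      simp only [row]
      simp_rw [mul_assoc]
      rw [← Finset.mul_sum, ← lin, h4, mul_zero]
  refine Matrix.exists_mulVec_eq_zero_iff.1 ⟨a, ha, ?_⟩
  funext i
  simpa [Matrix.mulVec, dotProduct] using h1 i

/-- DOC2 2.0.2. -/
theorem dtF_cocycle (P : Fin (n + 1) → Frm F n) (w : Fin n → ℂ) :
    ∑ i : Fin (n + 1), (-1) ^ (i : ℕ) * ((val σ (P i) w : ℂ) *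
      dtF σ (fun k => P (i.succAbove k)) w) = 0 := by
  let M : Matrix (Fin (n + 1)) (Fin (n + 1)) ℂ :=
    Matrix.of fun i => Fin.cons (val σ (P i) w : ℂ) (row σ (P i) w)
  have h0 : M.det = 0 := by
    refine Matrix.exists_mulVec_eq_zero_iff.1 ⟨Fin.cons (-1) w, ?_, ?_⟩
    · intro h
      have := congrFun h 0
      simp at this
    · funext i
      simp only [Matrix.mulVec, dotProduct, Fin.sum_univ_succ, M, Matrix.of_apply, Fin.cons_zero,
        Fin.cons_succ, row_dot, Pi.zero_apply]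
      ring
  rw [Matrix.det_succ_column_zero] at h0
  rw [← h0]
  refine Finset.sum_congr rfl fun i _ => ?_
  rw [← mul_assoc]
  congr 1

/-- Multiplication of a form by an element. -/
def epsF (ε : F) : Frm F n → Frm F n
  | .dg y => .dg fun j => ‖σ j ε‖ ^ 2 * y j
  | .bd v => .bd (ε * v)

theorem lin_mul (ε v : F) (w : Fin n → ℂ) :
    lin σ (ε * v) w = lin σ v (fun j => σ j ε * w j) := by
  simp only [lin, map_mul]
  exact Finset.sum_congr rfl fun j _ => by ring

theorem val_eps (ε : F) (P : Frm F n) (w : Fin n → ℂ) :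
    val σ (epsF σ ε P) w = val σ P (fun j => σ j ε * w j) := by
  cases P with
  | dg y =>
    simp only [epsF, val, norm_mul, mul_pow]
    exact Finset.sum_congr rfl fun j _ => by ring
  | bd v => simp only [epsF, val, lin_mul]

theorem row_eps (ε : F) (P : Frm F n) (w : Fin n → ℂ) (j : Fin n) :
    row σ (epsF σ ε P) w j = row σ P (fun j => σ j ε * w j) j * σ j ε := by
  cases P with
  | dg y =>
    simp only [epsF, row, map_mul]
    have h : ((‖σ j ε‖ ^ 2 * y j : ℝ) : ℂ) = (starRingEnd ℂ) (σ j ε) * σ j ε * y j := by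
      rw [mul_comm ((starRingEnd ℂ) (σ j ε)), Complex.mul_conj, Complex.normSq_eq_norm_sq]
      push_cast
      ring
    rw [h]
    ring
  | bd v =>
    simp only [epsF, row, lin_mul, map_mul]
    ring

theorem dtF_eps (hσ : Function.Bijective σ) (ε : F) (P : Fin n → Frm F n) (w : Fin n → ℂ) :
    dtF σ (fun i => epsF σ ε (P i)) w = dtF σ P (fun j => σ j ε * w j) * NF ε := by
  have h : (Matrix.of fun i j => row σ (epsF σ ε (P i)) w j) =
      Matrix.of fun i j => σ j ε *
        (Matrix.of fun i j => row σ (P i) (fun j => σ j ε * w j) j) i j := by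
    ext i j
    simp [row_eps, mul_comm]
  rw [dtF, h, Matrix.det_mul_row, nf_prod σ hσ, mul_comm]
  rfl

theorem vec_mul (ε z : F) : vec σ (ε * z) = fun j => σ j ε * vec σ z j := by
  funext j
  simp [vec]

/-- DOC2 2.3.2, invariance of `I2`. -/
theorem I2_eps (hσ : Function.Bijective σ) (δ : F → ℂ) (ε : F) (h0 : ε ≠ 0)
    (h1 : Algebra.norm K ε = 1) (hδ : ∀ z, δ (ε * z) = δ z) (P : Fin n → Frm F n) :
    I2 σ δ (fun i => epsF σ ε (P i)) = I2 σ δ P := by
  rw [I2_eq, I2_eq]
  refine MeasureTheory.integral_congr_ae (Filter.Eventually.of_forall fun t => ?_)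
  simp only [TiF]
  rw [← (Equiv.mulLeft₀ ε h0).tsum_eq
    (fun z : F => δ z * dtF σ P (vec σ z) * Real.exp (-Qf σ P t (vec σ z)))]
  refine tsum_congr fun z => ?_
  have hN : NF ε = 1 := by simp [NF, h1]
  have hq : Qf σ (fun i => epsF σ ε (P i)) t (vec σ z) = Qf σ P t (vec σ (ε * z)) := by
    simp only [Qf, val_eps, vec_mul]
  change _ = δ (ε * z) * dtF σ P (vec σ (ε * z)) * Real.exp (-Qf σ P t (vec σ (ε * z)))
  rw [dtF_eps σ hσ, hN, mul_one, hq, hδ, vec_mul]

/-- Dependent families of boundary forms (second part of `s2_main`). -/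
theorem det_dep (v : Fin n → F) (h : ¬ LinearIndependent K v) :
    (Matrix.of fun i j => σ j (v i)).det = 0 := by
  rw [Fintype.not_linearIndependent_iff] at h
  obtain ⟨g, hg, i, hi⟩ := h
  refine Matrix.exists_vecMul_eq_zero_iff.1 ⟨fun i => embK (g i), ?_, ?_⟩
  · intro h
    have := congrFun h i
    simp only [Pi.zero_apply, map_eq_zero] at this
    exact hi this
  · funext j
    have h2 := congrArg (σ j) hg
    simp only [map_sum, map_zero] at h2
    simpa [Matrix.vecMul, dotProduct, Algebra.smul_def, algebraMap_eq] using h2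

theorem I2_dep (δ : F → ℂ) (v : Fin n → F) (h : ¬ LinearIndependent K v) :
    I2 σ δ (fun i => Frm.bd (v i)) = 0 := by
  rw [I2_eq]
  have : TiF σ δ (fun i => (Frm.bd (v i) : Frm F n)) = fun _ => 0 := by
    funext t
    simp [TiF, dtF_bd, det_dep σ v h]
  rw [this]
  simp

end

end Pool.Agent.Lib.MP_1a91b9_ntT
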