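import Mathlib

/-!
# S2 / H1: integrals over `(0,∞)ⁿ⁺¹`
-/

set_option autoImplicit false

namespace Pool.Agent.Lib.MP_1a91b9_ntT

open MeasureTheory Set

/-- The open orthant. -/
def Oc (n : ℕ) : Set (Fin n → ℝ) := Set.univ.pi fun _ => Set.Ioi 0

theorem measurableSet_Oc (n : ℕ) : MeasurableSet (Oc n) :=
  MeasurableSet.univ_pi fun _ => measurableSet_Ioi

theorem mem_Oc {n : ℕ} {t : Fin n → ℝ} : t ∈ Oc n ↔ ∀ i, 0 < t i := by
  simp [Oc]

theorem insertNth_mem_Oc {n : ℕ} (i : Fin (n + 1)) (s : ℝ) (t : Fin n → ℝ) :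
    (i.insertNth s t : Fin (n + 1) → ℝ) ∈ Oc (n + 1) ↔ s ∈ Ioi (0 : ℝ) ∧ t ∈ Oc n := by
  rw [mem_Oc, mem_Oc, i.forall_iff_succAbove]
  simp

/-- Integration over the orthant, first in the variable `i`. -/
theorem int_insertNth {n : ℕ} (i : Fin (n + 1)) (f : (Fin (n + 1) → ℝ) → ℂ)
    (hf : IntegrableOn f (Oc (n + 1))) :
    ∫ t in Oc (n + 1), f t = ∫ t in Oc n, ∫ s in Ioi (0 : ℝ), f (i.insertNth s t) := by
  let e := MeasurableEquiv.piFinSuccAbove (fun _ : Fin (n + 1) => ℝ) i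
  have he : MeasurePreserving e := volume_preserving_piFinSuccAbove (fun _ => ℝ) i
  have hpre : e.symm ⁻¹' (Oc (n + 1)) = Ioi (0 : ℝ) ×ˢ Oc n := by
    ext ⟨s, t⟩
    exact insertNth_mem_Oc i s t
  have h1 : ∫ t in Oc (n + 1), f t = ∫ z in Ioi (0 : ℝ) ×ˢ Oc n, f (e.symm z) := by
    rw [← hpre]
    exact (he.symm.setIntegral_preimage_emb e.symm.measurableEmbedding f (Oc (n + 1))).symm
  have h2 : IntegrableOn (fun z => f (e.symm z)) (Ioi (0 : ℝ) ×ˢ Oc n) := by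
    rw [← hpre]
    exact (he.symm.integrableOn_comp_preimage e.symm.measurableEmbedding).2 hf
  rw [h1]
  rw [Measure.volume_eq_prod] at h2 ⊢
  rw [← Measure.prod_restrict, integral_prod_symm]
  · rfl
  · rw [IntegrableOn, ← Measure.prod_restrict] at h2
    exact h2

/-- `exp (- c ∑ tᵢ)` is integrable on the orthant. -/
theorem intg_exp (n : ℕ) (c : ℝ) (hc : 0 < c) :
    IntegrableOn (fun t : Fin n → ℝ => Real.exp (-c * ∑ i, t i)) (Oc n) := by
  have h : (fun t : Fin n → ℝ => Real.exp (-c * ∑ i, t i)) =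
      fun t => ∏ i, (fun _ x => Real.exp (-c * x)) i (t i) := by
    funext t
    rw [Finset.mul_sum, Real.exp_sum]
  rw [h, IntegrableOn, Oc]
  have h2 : (volume.restrict (Set.univ.pi fun _ : Fin n => Ioi (0 : ℝ))) =
      Measure.pi fun _ : Fin n => (volume.restrict (Ioi (0 : ℝ))) := by
    rw [volume_pi, Measure.restrict_pi_pi]
  rw [h2]
  exact Integrable.fintype_prod fun _ => integrableOn_exp_mul_Ioi (by linarith) 0

/-- A criterion of integrability. -/
theorem intg_of_bound {n : ℕ} (f : (Fin n → ℝ) → ℂ) (hf : ContinuousOn f (Oc n)) (C c : ℝ)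
    (hc : 0 < c) (h : ∀ t ∈ Oc n, ‖f t‖ ≤ C * Real.exp (-c * ∑ i, t i)) :
    IntegrableOn f (Oc n) := by
  refine Integrable.mono' ((intg_exp n c hc).const_mul C)
    (hf.aestronglyMeasurable (measurableSet_Oc n)) ?_
  filter_upwards [ae_restrict_mem (measurableSet_Oc n)] with t ht
  exact h t ht

end Pool.Agent.Lib.MP_1a91b9_ntT
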