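import Pool.Agent.Lib.MP_1a91b9_ntT.S2.H0
import Pool.Agent.Lib.MP_1a91b9_ntT.S2.H1

/-!
# S2 / H2: the cocycle relation (DOC2 2.3.1)
-/

set_option autoImplicit false
set_option linter.unusedSectionVars false

namespace Pool.Agent.Lib.MP_1a91b9_ntT

open NumberField MeasureTheory Set

noncomputable section

universe u

variable {F : Type u} [Field F] [NumberField F] [Algebra K F] {n : ℕ}

/-- Absolute convergence of all the sums (export E1 of the decay lemma). -/
def SumE (σ : Fin n → (F →ₐ[K] ℂ)) (δ : F → ℂ) (S : Set F) : Prop :=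
  ∀ (k : ℕ) (P : Fin k → Frm F n), (∀ i, OkF S (P i)) → Full σ P → ∀ t ∈ Oc k,
    ∀ Q : Fin n → Frm F n,
      (Summable fun z => ‖δ z * dtF σ Q (vec σ z) * Real.exp (-Qf σ P t (vec σ z))‖) ∧
      ∀ R : Frm F n, Summable fun z =>
        ‖δ z * ((val σ R (vec σ z) : ℝ) : ℂ) * dtF σ Q (vec σ z) *
          Real.exp (-Qf σ P t (vec σ z))‖

/-- The functions `H_i` of DOC2 2.3.1. -/
def HiF (σ : Fin n → (F →ₐ[K] ℂ)) (δ : F → ℂ) (P : Fin (n + 1) → Frm F n) (i : Fin (n + 1))
    (t : Fin (n + 1) → ℝ) : ℂ :=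
  ∑' z : F, δ z * ((val σ (P i) (vec σ z) : ℝ) : ℂ) *
    dtF σ (fun k => P (i.succAbove k)) (vec σ z) * Real.exp (-Qf σ P t (vec σ z))

/-- Integrability of the functions `H_i` (export E2 of the decay lemma). -/
def IntE (σ : Fin n → (F →ₐ[K] ℂ)) (δ : F → ℂ) (S : Set F) : Prop :=
  ∀ P : Fin (n + 1) → Frm F n, (∀ i, OkF S (P i)) → Full σ P → ∀ i,
    IntegrableOn (HiF σ δ P i) (Oc (n + 1))

theorem countable_numberField : Countable F := by
  have e : F ≃ₗ[ℚ] (Fin (Module.finrank ℚ F) → ℚ) := (Module.finBasis ℚ F).equivFun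
  exact e.toEquiv.countable_iff.2 inferInstance

variable (σ : Fin n → (F →ₐ[K] ℂ))

theorem Qf_insertNth (P : Fin (n + 1) → Frm F n) (i : Fin (n + 1)) (s : ℝ) (t : Fin n → ℝ)
    (w : Fin n → ℂ) : Qf σ P (i.insertNth s t) w =
      s * val σ (P i) w + Qf σ (fun k => P (i.succAbove k)) t w := by
  simp only [Qf]
  rw [Fin.sum_univ_succAbove _ i]
  simp

theorem int_val_exp (a : ℝ) (ha : 0 < a) : ∫ s in Ioi (0 : ℝ), a * Real.exp (-(s * a)) = 1 := by
  have h : (fun s : ℝ => a * Real.exp (-(s * a))) = fun s => a * Real.exp (-a * s) := by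
    funext s
    congr 2
    ring
  rw [h, integral_const_mul, integral_exp_mul_Ioi (by linarith) 0]
  field_simp
  simp

theorem intg_val_exp (a : ℝ) (ha : 0 < a) :
    IntegrableOn (fun s : ℝ => a * Real.exp (-(s * a))) (Ioi (0 : ℝ)) := by
  have h : (fun s : ℝ => a * Real.exp (-(s * a))) = fun s => a * Real.exp (-a * s) := by
    funext s
    congr 2
    ring
  rw [h]
  exact (integrableOn_exp_mul_Ioi (by linarith) 0).const_mul a

/-- The inner integral. -/
theorem int_HiF (hσ : Function.Bijective σ) (hn : 0 < n) {δ : F → ℂ} {S : Set F}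
    (hδ : Adm2 δ S) (h1 : SumE σ δ S) (P : Fin (n + 1) → Frm F n) (hP : ∀ i, OkF S (P i))
    (i : Fin (n + 1)) (hf : Full σ fun k => P (i.succAbove k)) (t : Fin n → ℝ) (ht : t ∈ Oc n) :
    ∫ s in Ioi (0 : ℝ), HiF σ δ P i (i.insertNth s t) =
      TiF σ δ (fun k => P (i.succAbove k)) t := by
  have := countable_numberField (F := F)
  have hpos : ∀ z, δ z ≠ 0 → 0 < val σ (P i) (vec σ z) := fun z hz =>
    val_pos σ hσ hn hδ (P i) (hP i) z hz
  have key : ∀ (z : F) (s : ℝ), δ z * ((val σ (P i) (vec σ z) : ℝ) : ℂ) *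
      dtF σ (fun k => P (i.succAbove k)) (vec σ z) *
        Real.exp (-Qf σ P (i.insertNth s t) (vec σ z)) =
      (δ z * dtF σ (fun k => P (i.succAbove k)) (vec σ z) *
        Real.exp (-Qf σ (fun k => P (i.succAbove k)) t (vec σ z))) *
      ((val σ (P i) (vec σ z) * Real.exp (-(s * val σ (P i) (vec σ z))) : ℝ) : ℂ) := by
    intro z s
    rw [Qf_insertNth, neg_add, Real.exp_add]
    push_cast
    ring
  have hone : ∀ z : F, (δ z * dtF σ (fun k => P (i.succAbove k)) (vec σ z) *
        Real.exp (-Qf σ (fun k => P (i.succAbove k)) t (vec σ z))) *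
      (∫ s in Ioi (0 : ℝ), ((val σ (P i) (vec σ z) *
        Real.exp (-(s * val σ (P i) (vec σ z))) : ℝ) : ℂ)) =
      δ z * dtF σ (fun k => P (i.succAbove k)) (vec σ z) *
        Real.exp (-Qf σ (fun k => P (i.succAbove k)) t (vec σ z)) := by
    intro z
    rcases eq_or_ne (δ z) 0 with hz | hz
    · simp [hz]
    · rw [integral_complex_ofReal, int_val_exp _ (hpos z hz)]
      simp
  simp only [HiF, key]
  rw [← integral_tsum_of_summable_integral_norm]
  · refine tsum_congr fun z => ?_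
    rw [integral_const_mul]
    exact hone z
  · intro z
    rcases eq_or_ne (δ z) 0 with hz | hz
    · simp [hz]
    · exact (intg_val_exp _ (hpos z hz)).ofReal.const_mul _
  · have h3 := (h1 n _ (fun k => hP (i.succAbove k)) hf t ht
      (fun k => P (i.succAbove k))).1
    refine h3.congr fun z => ?_
    rcases eq_or_ne (δ z) 0 with hz | hz
    · simp [hz]
    · have h4 : ∀ s : ℝ, ‖((δ z * dtF σ (fun k => P (i.succAbove k)) (vec σ z) *
          Real.exp (-Qf σ (fun k => P (i.succAbove k)) t (vec σ z))) *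
          ((val σ (P i) (vec σ z) * Real.exp (-(s * val σ (P i) (vec σ z))) : ℝ) : ℂ))‖ =
          ‖δ z * dtF σ (fun k => P (i.succAbove k)) (vec σ z) *
          Real.exp (-Qf σ (fun k => P (i.succAbove k)) t (vec σ z))‖ *
          (val σ (P i) (vec σ z) * Real.exp (-(s * val σ (P i) (vec σ z)))) := by
        intro s
        rw [norm_mul, Complex.norm_real, Real.norm_of_nonneg]
        have := hpos z hz
        positivity
      simp only [h4]
      rw [integral_const_mul, int_val_exp _ (hpos z hz), mul_one]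

/-- Degenerate minors. -/
theorem TiF_not_full {δ : F → ℂ} {S : Set F} (P : Fin n → Frm F n) (hP : ∀ i, OkF S (P i))
    (h : ¬ Full σ P) (t : Fin n → ℝ) : TiF σ δ P t = 0 := by
  simp [TiF, dtF_not_full σ P hP h]

theorem I2_not_full {δ : F → ℂ} {S : Set F} (P : Fin n → Frm F n) (hP : ∀ i, OkF S (P i))
    (h : ¬ Full σ P) : I2 σ δ P = 0 := by
  rw [I2_eq]
  simp [TiF_not_full σ P hP h]

/-- DOC2 2.3.1: the cocycle relation. -/
theorem I2_cocycle (hσ : Function.Bijective σ) (hn : 0 < n) {δ : F → ℂ} {S : Set F}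
    (hδ : Adm2 δ S) (h1 : SumE σ δ S) (h2 : IntE σ δ S) (P : Fin (n + 1) → Frm F n)
    (hP : ∀ i, OkF S (P i)) :
    ∑ i : Fin (n + 1), (-1) ^ (i : ℕ) * I2 σ δ (fun k => P (i.succAbove k)) = 0 := by
  by_cases hf : Full σ P
  · have hA : ∀ i, I2 σ δ (fun k => P (i.succAbove k)) = ∫ t in Oc (n + 1), HiF σ δ P i t := by
      intro i
      by_cases hi : Full σ fun k => P (i.succAbove k)
      · rw [int_insertNth i _ (h2 P hP hf i), I2_eq]
        exact setIntegral_congr_fun (measurableSet_Oc n) fun t ht =>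
          (int_HiF σ hσ hn hδ h1 P hP i hi t ht).symm
      · rw [I2_not_full σ _ (fun k => hP (i.succAbove k)) hi]
        simp [HiF, dtF_not_full σ _ (fun k => hP (i.succAbove k)) hi]
    simp only [hA, ← integral_const_mul]
    rw [← integral_finsetSum _ fun i _ => (h2 P hP hf i).const_mul _]
    rw [setIntegral_congr_fun (g := fun _ => (0 : ℂ)) (measurableSet_Oc (n + 1)), integral_zero]
    intro t ht
    simp only [HiF, ← tsum_mul_left]
    have hs : ∀ i : Fin (n + 1), Summable fun z : F => (-1 : ℂ) ^ (i : ℕ) *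
        (δ z * ((val σ (P i) (vec σ z) : ℝ) : ℂ) *
          dtF σ (fun k => P (i.succAbove k)) (vec σ z) * Real.exp (-Qf σ P t (vec σ z))) :=
      fun i => (((h1 (n + 1) P hP hf t ht (fun k => P (i.succAbove k))).2 (P i)).of_norm).mul_left _
    rw [← Summable.tsum_finsetSum fun i _ => hs i]
    refine (tsum_congr fun z => ?_).trans tsum_zero
    have h4 := dtF_cocycle σ P (vec σ z)
    calc ∑ i : Fin (n + 1), (-1 : ℂ) ^ (i : ℕ) *
          (δ z * ((val σ (P i) (vec σ z) : ℝ) : ℂ) *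
            dtF σ (fun k => P (i.succAbove k)) (vec σ z) * Real.exp (-Qf σ P t (vec σ z)))
        = δ z * Real.exp (-Qf σ P t (vec σ z)) * ∑ i : Fin (n + 1), (-1) ^ (i : ℕ) *
          (((val σ (P i) (vec σ z) : ℝ) : ℂ) *
            dtF σ (fun k => P (i.succAbove k)) (vec σ z)) := by
          rw [Finset.mul_sum]
          exact Finset.sum_congr rfl fun i _ => by ring
      _ = 0 := by rw [h4, mul_zero]
  · have hi : ∀ i : Fin (n + 1), ¬ Full σ fun k => P (i.succAbove k) := by
      intro i h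
      exact hf fun w hw => by
        obtain ⟨k, hk⟩ := h w hw
        exact ⟨_, hk⟩
    simp [fun i => I2_not_full (δ := δ) σ _ (fun k => hP (Fin.succAbove i k)) (hi i)]

end

end Pool.Agent.Lib.MP_1a91b9_ntT
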