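import Pool.Agent.Lib.MP_1a91b9_ntT.S3.Main
import Pool.Agent.Lib.MP_1a91b9_ntT.S2.Defs

/-!
# S2 / H6: the one-dimensional lattice sums of the Gaussian kernel
-/

set_option autoImplicit false

namespace Pool.Agent.Lib.MP_1a91b9_ntT

open NumberField MeasureTheory

noncomputable section

def gE (c : ℕ) (t : ℝ) (w : ℂ) : ℂ := ∑' a : 𝓞 K, kerG t (w + c * embK (a : K))

namespace H6

/-! ### Averages over the classes -/

/-- `f` is periodic modulo `c (ℤ + ℤ zt)`. -/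
def Per (c : ℕ) (f : ℂ → ℂ) : Prop := ∀ (z : ℂ) (l : ℤ × ℤ), f (z + c * lp l) = f z

/-- The average of `f` over the classes of `(1/D) ℤ[zt]` modulo `c ℤ[zt]` vanishes. -/
def Ave (D c : ℕ) (f : ℂ → ℂ) : Prop :=
  ∀ l : ℤ × ℤ, ∑ x : Fin (c * D) × Fin (c * D), f (lp l / D + ixC D c x) = 0

/-- `ZMod n` and `Fin n`. -/
def zf (n : ℕ) [NeZero n] : ZMod n ≃ Fin n where
  toFun y := ⟨y.val, ZMod.val_lt y⟩
  invFun x := ((x : ℕ) : ZMod n)
  left_inv y := ZMod.natCast_zmod_val y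
  right_inv x := Fin.ext (ZMod.val_cast_of_lt x.2)

theorem per_aux {D c : ℕ} (hD : 0 < D) {f : ℂ → ℂ} (hf : Per c f) {u v : ℤ × ℤ}
    (h1 : ((c * D : ℕ) : ℤ) ∣ u.1 - v.1) (h2 : ((c * D : ℕ) : ℤ) ∣ u.2 - v.2) :
    f (lp u / D) = f (lp v / D) := by
  obtain ⟨a, ha⟩ := h1
  obtain ⟨b, hb⟩ := h2
  have hD0 : (D : ℂ) ≠ 0 := by exact_mod_cast hD.ne'
  have e : lp u / D = lp v / D + c * lp (a, b) := by
    have ha' : (u.1 : ℂ) = v.1 + c * D * a := by
      have : u.1 = v.1 + (c * D : ℕ) * a := by linarith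
      rw [this]; push_cast; ring
    have hb' : (u.2 : ℂ) = v.2 + c * D * b := by
      have : u.2 = v.2 + (c * D : ℕ) * b := by linarith
      rw [this]; push_cast; ring
    rw [lp, lp, lp, ha', hb']
    field_simp
    ring
  rw [e, hf]

/-- The function on `(ZMod n)²`. -/
def FF (D c : ℕ) (f : ℂ → ℂ) (y : ZMod (c * D) × ZMod (c * D)) : ℂ :=
  f (lp ((y.1.val : ℤ), (y.2.val : ℤ)) / D)

theorem FF_cast {D c : ℕ} (hD : 0 < D) [NeZero (c * D)] {f : ℂ → ℂ} (hf : Per c f) (u : ℤ × ℤ) :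
    FF D c f ((u.1 : ZMod (c * D)), (u.2 : ZMod (c * D))) = f (lp u / D) := by
  refine per_aux hD hf ?_ ?_
  · rw [← ZMod.intCast_zmod_eq_zero_iff_dvd]
    push_cast
    rw [ZMod.natCast_zmod_val, sub_self]
  · rw [← ZMod.intCast_zmod_eq_zero_iff_dvd]
    push_cast
    rw [ZMod.natCast_zmod_val, sub_self]

theorem sum_eq {D c : ℕ} (hD : 0 < D) [NeZero (c * D)] {f : ℂ → ℂ} (hf : Per c f) (l : ℤ × ℤ) :
    ∑ x : Fin (c * D) × Fin (c * D), f (lp l / D + ixC D c x) =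
      ∑ y : ZMod (c * D) × ZMod (c * D), FF D c f y := by
  rw [← ((zf (c * D)).prodCongr (zf (c * D))).sum_comp]
  have hR : ∑ y, FF D c f ((Equiv.addRight (((l.1 : ZMod (c * D)), (l.2 : ZMod (c * D))) :
      ZMod (c * D) × ZMod (c * D))) y) = ∑ y, FF D c f y :=
    Equiv.sum_comp _ _
  rw [← hR]
  refine Finset.sum_congr rfl fun y _ => ?_
  have h1 : ((Equiv.addRight (((l.1 : ZMod (c * D)), (l.2 : ZMod (c * D))) :
      ZMod (c * D) × ZMod (c * D))) y) =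
      (((l.1 + y.1.val : ℤ) : ZMod (c * D)), ((l.2 + y.2.val : ℤ) : ZMod (c * D))) := by
    apply Prod.ext
    · show y.1 + (l.1 : ZMod (c * D)) = _
      push_cast
      rw [ZMod.natCast_zmod_val, add_comm]
    · show y.2 + (l.2 : ZMod (c * D)) = _
      push_cast
      rw [ZMod.natCast_zmod_val, add_comm]
  rw [h1, FF_cast hD hf (l.1 + y.1.val, l.2 + y.2.val)]
  congr 1
  have hD0 : (D : ℂ) ≠ 0 := by exact_mod_cast hD.ne'
  show lp l / D + ((((y.1.val : ℕ)) : ℂ) + (((y.2.val : ℕ)) : ℂ) * zt) / D = _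
  rw [lp, lp]
  push_cast
  field_simp
  ring

theorem ave_of_odd {D c : ℕ} (hD : 0 < D) (hc : 0 < c) {f : ℂ → ℂ} (hf : Per c f)
    (hodd : ∀ z, f (-z) = - f z) : Ave D c f := by
  have : NeZero (c * D) := ⟨(Nat.mul_pos hc hD).ne'⟩
  intro l
  rw [sum_eq hD hf l]
  have h1 : ∑ y : ZMod (c * D) × ZMod (c * D), FF D c f (-y) =
      ∑ y : ZMod (c * D) × ZMod (c * D), FF D c f y :=
    Equiv.sum_comp (Equiv.neg (ZMod (c * D) × ZMod (c * D))) (FF D c f)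
  have h2 : ∀ y : ZMod (c * D) × ZMod (c * D), FF D c f (-y) = - FF D c f y := by
    intro y
    have e1 : -y = (((-(y.1.val : ℤ) : ℤ) : ZMod (c * D)), ((-(y.2.val : ℤ) : ℤ) :
        ZMod (c * D))) := by
      apply Prod.ext
      · show -y.1 = _
        push_cast
        rw [ZMod.natCast_zmod_val]
      · show -y.2 = _
        push_cast
        rw [ZMod.natCast_zmod_val]
    rw [e1, FF_cast hD hf (-(y.1.val : ℤ), -(y.2.val : ℤ)), FF, ← hodd]
    congr 1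
    rw [lp, lp]
    push_cast
    ring
  simp_rw [h2] at h1
  rw [Finset.sum_neg_distrib] at h1
  have h3 : 2 * ∑ y : ZMod (c * D) × ZMod (c * D), FF D c f y = 0 := by linear_combination -h1
  simpa using h3

/-- The index as a lattice point. -/
theorem ixC_lp (D c : ℕ) (x : Fin (c * D) × Fin (c * D)) :
    ixC D c x = lp (((x.1 : ℕ) : ℤ), ((x.2 : ℕ) : ℤ)) / D := by
  rw [ixC, lp]
  push_cast
  rfl

theorem ave_Df {D c : ℕ} {f : ℂ → ℂ} (hf : Ave D c f) (x : Fin (c * D) × Fin (c * D)) :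
    Ave D c (Df (ixC D c x) f) := by
  intro l
  simp only [Df]
  rw [Finset.sum_sub_distrib, hf l, zero_sub, neg_eq_zero]
  have h := hf (l.1 + ((x.1 : ℕ) : ℤ), l.2 + ((x.2 : ℕ) : ℤ))
  rw [← h]
  refine Finset.sum_congr rfl fun y _ => ?_
  congr 1
  rw [ixC_lp D c x, lp, lp, lp]
  push_cast
  ring

theorem mean_eq {D c : ℕ} (hD : 0 < D) (hc : 0 < c) {f : ℂ → ℂ} (hf : Ave D c f) (l : ℤ × ℤ) :
    f (lp l / D) = (((c * D : ℕ) : ℂ) ^ 2)⁻¹ *
      ∑ x : Fin (c * D) × Fin (c * D), Df (ixC D c x) f (lp l / D) := by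
  have h := hf l
  simp only [Df]
  rw [Finset.sum_sub_distrib, h, sub_zero, Finset.sum_const, Finset.card_univ, Fintype.card_prod,
    Fintype.card_fin, nsmul_eq_mul]
  have hc0 : (c : ℂ) ≠ 0 := by exact_mod_cast hc.ne'
  have hD0 : (D : ℂ) ≠ 0 := by exact_mod_cast hD.ne'
  push_cast
  field_simp

/-- Threefold differences. -/
theorem mean3 {D c : ℕ} (hD : 0 < D) (hc : 0 < c) {f : ℂ → ℂ} (hf : Ave D c f) (l : ℤ × ℤ) :
    f (lp l / D) = (((c * D : ℕ) : ℂ) ^ 2)⁻¹ *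
      ∑ r : Fin (c * D) × Fin (c * D), (((c * D : ℕ) : ℂ) ^ 2)⁻¹ *
        ∑ s : Fin (c * D) × Fin (c * D), (((c * D : ℕ) : ℂ) ^ 2)⁻¹ *
          ∑ q : Fin (c * D) × Fin (c * D),
            Df (ixC D c q) (Df (ixC D c s) (Df (ixC D c r) f)) (lp l / D) := by
  rw [mean_eq hD hc hf l]
  congr 1
  refine Finset.sum_congr rfl fun r _ => ?_
  rw [mean_eq hD hc (ave_Df hf r) l]
  congr 1
  refine Finset.sum_congr rfl fun s _ => ?_
  rw [mean_eq hD hc (ave_Df (ave_Df hf r) s) l]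

/-! ### Summability -/

theorem summable_of_cube {g : ℂ → ℝ} {C : ℝ} (hC : 0 ≤ C) (h0 : ∀ u, 0 ≤ g u)
    (hg : ∀ u, u ≠ 0 → g u ≤ C * (‖u‖ ^ 3)⁻¹) {c : ℂ} (hc : c ≠ 0) (w : ℂ) :
    Summable (fun l : PP.lattice => g (w + c * l)) := by
  have h1 : Summable (fun l : PP.lattice => C * (8 / ‖c‖ ^ 3) * ‖l‖ ^ (-3 : ℝ)) :=
    (ZLattice.summable_norm_rpow _ _ (by simp; norm_num)).mul_left _
  refine Summable.of_norm_bounded_eventually h1 ?_
  have hc0 : 0 < ‖c‖ := norm_pos_iff.2 hc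
  set R : ℝ := (2 * ‖w‖ + 1) / ‖c‖ with hR
  refine (isCompact_iff_finite.mp (isCompact_closedBall (0 : PP.lattice) R)).subset ?_
  intro l hl
  by_contra hlR
  apply hl
  simp only [Metric.mem_closedBall, dist_zero_right, not_le] at hlR
  have hlR' : R < ‖(l : ℂ)‖ := hlR
  rw [hR, div_lt_iff₀ hc0] at hlR'
  have hw0 := norm_nonneg w
  have hcl : ‖c * (l : ℂ)‖ = ‖(l : ℂ)‖ * ‖c‖ := by rw [norm_mul, mul_comm]
  have h2 : ‖c * (l : ℂ)‖ / 2 ≤ ‖w + c * l‖ := by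
    have h3 : ‖c * (l : ℂ)‖ ≤ ‖w + c * l‖ + ‖w‖ := by
      have e : c * (l : ℂ) = (w + c * l) - w := by ring
      calc ‖c * (l : ℂ)‖ = ‖(w + c * l) - w‖ := by rw [← e]
        _ ≤ _ := norm_sub_le _ _
    rw [hcl] at h3 ⊢
    linarith
  have hpos : 0 < ‖c * (l : ℂ)‖ := by rw [hcl]; linarith
  have h5 : w + c * l ≠ 0 := by
    intro h
    rw [h, norm_zero] at h2
    linarith
  show ‖g (w + c * l)‖ ≤ _
  rw [Real.norm_of_nonneg (h0 _)]
  refine (hg _ h5).trans ?_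
  have hl0 : 0 < ‖(l : ℂ)‖ := by
    rw [hcl] at hpos
    exact pos_of_mul_pos_left hpos hc0.le
  have e3 : ‖l‖ ^ (-3 : ℝ) = (‖(l : ℂ)‖ ^ 3)⁻¹ := by
    rw [Real.rpow_neg (norm_nonneg _)]
    congr 1
    norm_cast
  rw [e3, mul_assoc C]
  refine mul_le_mul_of_nonneg_left ?_ hC
  have h6 : (8 / ‖c‖ ^ 3) * (‖(l : ℂ)‖ ^ 3)⁻¹ = ((‖c * (l : ℂ)‖ / 2) ^ 3)⁻¹ := by
    rw [hcl]
    field_simp
    norm_num
  rw [h6]
  exact inv_anti₀ (by positivity) (pow_le_pow_left₀ (by positivity) h2 3)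

theorem norm_kerG_le {t : ℝ} (ht : 0 < t) (u : ℂ) (hu : u ≠ 0) :
    ‖kerG t u‖ ≤ 2 / t ^ 2 * (‖u‖ ^ 3)⁻¹ := by
  have hu0 : 0 < ‖u‖ := norm_pos_iff.2 hu
  have h1 : ‖kerG t u‖ = ‖u‖ * Real.exp (-(t * ‖u‖ ^ 2)) := by
    rw [kerG, norm_mul, Complex.norm_real, Real.norm_of_nonneg (Real.exp_pos _).le]
    simp
  set y : ℝ := t * ‖u‖ ^ 2 with hy
  have hy0 : 0 < y := by positivity
  have h2 := Real.quadratic_le_exp_of_nonneg hy0.le
  have h3 : Real.exp (-y) ≤ 2 / y ^ 2 := by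
    rw [Real.exp_neg, inv_le_comm₀ (Real.exp_pos _) (by positivity), inv_div]
    nlinarith
  rw [h1]
  calc ‖u‖ * Real.exp (-y) ≤ ‖u‖ * (2 / y ^ 2) := by gcongr
    _ = 2 / t ^ 2 * (‖u‖ ^ 3)⁻¹ := by
      rw [hy]
      field_simp

theorem Df_tsum {g : ℂ → ℂ} {c : ℂ} (hg : ∀ w, Summable fun a : 𝓞 K => g (w + c * embK (a : K)))
    (s : ℂ) : (Df s fun w => ∑' a : 𝓞 K, g (w + c * embK (a : K))) =
      fun w => ∑' a : 𝓞 K, Df s g (w + c * embK (a : K)) := by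
  funext w
  rw [Df, ← (hg w).tsum_sub (hg (w + s))]
  refine tsum_congr fun a => ?_
  rw [Df, add_right_comm]

theorem Df_summable {g : ℂ → ℂ} {c : ℂ}
    (hg : ∀ w, Summable fun a : 𝓞 K => g (w + c * embK (a : K)))
    (s w : ℂ) : Summable fun a : 𝓞 K => Df s g (w + c * embK (a : K)) := by
  refine ((hg w).sub (hg (w + s))).congr fun a => ?_
  rw [Df, add_right_comm]

theorem integrable_tsum' {X ι : Type*} [Countable ι] [MeasurableSpace X] {μ : Measure X}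
    {F : ι → X → ℂ} (hF : ∀ i, Integrable (F i) μ) (hs : Summable fun i => ∫ a, ‖F i a‖ ∂μ) :
    Integrable (fun a => ∑' i, F i a) μ := by
  have h1 : ∑' i, ∫⁻ a, ‖F i a‖ₑ ∂μ ≠ ⊤ := by
    have e : (fun i => ∫⁻ a, ‖F i a‖ₑ ∂μ) = fun i => ENNReal.ofReal (∫ a, ‖F i a‖ ∂μ) := by
      funext i
      rw [ofReal_integral_norm_eq_lintegral_enorm (hF i)]
    rw [e]
    exact hs.tsum_ofReal_ne_top
  have h2 : ∫⁻ a, ∑' i, ‖F i a‖ₑ ∂μ ≠ ⊤ := by
    rw [lintegral_tsum (fun i => (hF i).1.enorm)]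
    exact h1
  have h3 : ∀ᵐ a ∂μ, ∑' i, ‖F i a‖ₑ < ⊤ :=
    ae_lt_top' (AEMeasurable.tsum fun i => (hF i).1.enorm) h2
  have h4 : ∀ᵐ a ∂μ, Summable fun i => F i a := by
    filter_upwards [h3] with a ha
    have h5 : Summable fun i => ‖F i a‖₊ := ENNReal.tsum_coe_ne_top_iff_summable.1 ha.ne
    exact Summable.of_nnnorm h5
  refine ⟨?_, ?_⟩
  · refine aestronglyMeasurable_of_tendsto_ae Filter.atTop
      (f := fun (s : Finset ι) a => ∑ i ∈ s, F i a) (fun s => ?_) (h4.mono fun a ha => ha.hasSum)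
    exact (Finset.aestronglyMeasurable_fun_sum s fun i _ => (hF i).1)
  · rw [hasFiniteIntegral_iff_enorm]
    refine lt_of_le_of_lt (lintegral_mono_ae ?_) (lt_top_iff_ne_top.2 h2)
    filter_upwards [h3] with a ha
    exact enorm_tsum_le_tsum_enorm
end H6

theorem gE_summable (c : ℕ) (hc : 0 < c) (t : ℝ) (ht : 0 < t) (w : ℂ) :
    Summable fun a : 𝓞 K => ‖kerG t (w + c * embK (a : K))‖ := by
  have hc0 : (c : ℂ) ≠ 0 := by exact_mod_cast hc.ne'
  exact S3.latE.summable_iff.2 (H6.summable_of_cube (g := fun u => ‖kerG t u‖)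
    (C := 2 / t ^ 2) (by positivity) (fun u => norm_nonneg _) (H6.norm_kerG_le ht) hc0 w)

namespace H6

theorem gE_per (c : ℕ) (t : ℝ) : Per c (gE c t) := by
  intro z l
  obtain ⟨b, hb⟩ := S3.mem_PP_iff.1 (S3.lp_mem l)
  rw [gE, gE, ← (Equiv.addLeft b).tsum_eq (fun a : 𝓞 K => kerG t (z + c * embK (a : K)))]
  refine tsum_congr fun a => ?_
  congr 1
  have e : ((b + a : 𝓞 K) : K) = (b : K) + (a : K) := rfl
  show z + c * lp l + c * embK (a : K) = z + c * embK ((b + a : 𝓞 K) : K)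
  rw [e, map_add, hb]
  ring

theorem kerG_neg (t : ℝ) (w : ℂ) : kerG t (-w) = - kerG t w := by
  rw [kerG, kerG, map_neg, norm_neg, neg_mul]

theorem gE_odd (c : ℕ) (t : ℝ) (z : ℂ) : gE c t (-z) = - gE c t z := by
  rw [gE, gE, ← tsum_neg, ← (Equiv.neg (𝓞 K)).tsum_eq]
  refine tsum_congr fun a => ?_
  rw [← kerG_neg]
  congr 1
  have e : ((-a : 𝓞 K) : K) = -(a : K) := rfl
  show -z + c * embK ((-a : 𝓞 K) : K) = -(z + c * embK (a : K))
  rw [e, map_neg]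
  ring

theorem E1_per (c : ℕ) (hc : 0 < c) : Per c (fun x => (c : ℂ)⁻¹ * E1 (x / c)) := by
  intro z l
  have hc0 : (c : ℂ) ≠ 0 := by exact_mod_cast hc.ne'
  have e : (z + c * lp l) / c = z / c + lp l := by
    field_simp
  simp only
  rw [e, s3_period]

theorem E1_odd' (c : ℕ) (z : ℂ) : (c : ℂ)⁻¹ * E1 (-z / c) = - ((c : ℂ)⁻¹ * E1 (z / c)) := by
  rw [neg_div, s3_neg]
  ring

theorem gE_summable' (c : ℕ) (hc : 0 < c) {t : ℝ} (ht : 0 < t) (w : ℂ) :
    Summable fun a : 𝓞 K => kerG t (w + c * embK (a : K)) := (gE_summable c hc t ht w).of_norm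

theorem Df3_gE (c : ℕ) (hc : 0 < c) {t : ℝ} (ht : 0 < t) (q s r w : ℂ) :
    Df q (Df s (Df r (gE c t))) w =
      ∑' a : 𝓞 K, Df q (Df s (Df r (kerG t))) (w + c * embK (a : K)) := by
  have h0 : gE c t = fun w => ∑' a : 𝓞 K, kerG t (w + c * embK (a : K)) := rfl
  have h1 := gE_summable' c hc ht
  rw [h0, Df_tsum h1 r, Df_tsum (Df_summable h1 r) s,
    Df_tsum (Df_summable (Df_summable h1 r) s) q]

theorem integrable_Df3 (c : ℕ) (hc : 0 < c) (q s r w : ℂ) :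
    IntegrableOn (fun t => Df q (Df s (Df r (gE c t))) w) (Set.Ioi 0) ∧
      ∫ t in Set.Ioi (0 : ℝ), Df q (Df s (Df r (gE c t))) w =
        Df q (Df s (Df r (fun x => (c : ℂ)⁻¹ * E1 (x / c)))) w := by
  have hc0 : (c : ℂ) ≠ 0 := by exact_mod_cast hc.ne'
  have hcount : Countable (𝓞 K) := S3.latE.injective.countable
  constructor
  · have h1 : IntegrableOn (fun t => ∑' a : 𝓞 K, Df q (Df s (Df r (kerG t)))
        (w + c * embK (a : K))) (Set.Ioi 0) :=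
      integrable_tsum' (fun a => S3.integrable_dif3 q s r (w + c * embK (a : K)))
        (summable_dif3_O hc0 q s r w)
    refine h1.congr_fun (fun t ht => ?_) measurableSet_Ioi
    exact (Df3_gE c hc ht q s r w).symm
  · rw [← integral_tsum_dif3_O hc0 q s r w]
    refine setIntegral_congr_fun measurableSet_Ioi fun t ht => ?_
    exact Df3_gE c hc ht q s r w

end H6

theorem gE_int (c D : ℕ) (hc : 0 < c) (hD : 0 < D) (b : 𝓞 K) :
    IntegrableOn (fun t => gE c t (embK (b : K) / D)) (Set.Ioi 0) ∧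
      ∫ t in Set.Ioi (0 : ℝ), gE c t (embK (b : K) / D) =
        (c : ℂ)⁻¹ * E1 (embK (b : K) / D / c) := by
  obtain ⟨l, hl⟩ := S3.mem_iff_lp.1 (S3.embK_mem b)
  rw [hl]
  set N : ℂ := (((c * D : ℕ) : ℂ) ^ 2)⁻¹ with hN
  have h1 : ∀ t : ℝ, gE c t (lp l / D) = N *
      ∑ r : Fin (c * D) × Fin (c * D), N * ∑ s : Fin (c * D) × Fin (c * D), N *
        ∑ q : Fin (c * D) × Fin (c * D),
          Df (ixC D c q) (Df (ixC D c s) (Df (ixC D c r) (gE c t))) (lp l / D) := fun t =>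
    H6.mean3 hD hc (H6.ave_of_odd hD hc (H6.gE_per c t) (H6.gE_odd c t)) l
  have h2 := H6.mean3 hD hc (H6.ave_of_odd hD hc (H6.E1_per c hc) (H6.E1_odd' c)) l
  simp only [← hN] at h2
  have hi := fun q s r => H6.integrable_Df3 c hc q s r (lp l / D)
  have i1 : ∀ r s, IntegrableOn (fun t => N * ∑ q : Fin (c * D) × Fin (c * D),
      Df (ixC D c q) (Df (ixC D c s) (Df (ixC D c r) (gE c t))) (lp l / D)) (Set.Ioi 0) :=
    fun r s => (integrable_finsetSum _ fun q _ => (hi (ixC D c q) (ixC D c s) (ixC D c r)).1).const_mul _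
  have i2 : ∀ r, IntegrableOn (fun t => N * ∑ s : Fin (c * D) × Fin (c * D), N *
      ∑ q : Fin (c * D) × Fin (c * D),
        Df (ixC D c q) (Df (ixC D c s) (Df (ixC D c r) (gE c t))) (lp l / D)) (Set.Ioi 0) :=
    fun r => (integrable_finsetSum _ fun s _ => i1 r s).const_mul _
  have i3 : IntegrableOn (fun t => N * ∑ r : Fin (c * D) × Fin (c * D), N *
      ∑ s : Fin (c * D) × Fin (c * D), N *
      ∑ q : Fin (c * D) × Fin (c * D),
        Df (ixC D c q) (Df (ixC D c s) (Df (ixC D c r) (gE c t))) (lp l / D)) (Set.Ioi 0) :=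
    (integrable_finsetSum _ fun r _ => i2 r).const_mul _
  have hfun : (fun t => gE c t (lp l / D)) = fun t => N * ∑ r : Fin (c * D) × Fin (c * D), N *
      ∑ s : Fin (c * D) × Fin (c * D), N *
      ∑ q : Fin (c * D) × Fin (c * D),
        Df (ixC D c q) (Df (ixC D c s) (Df (ixC D c r) (gE c t))) (lp l / D) := funext h1
  refine ⟨by rw [hfun]; exact i3, ?_⟩
  rw [hfun, integral_const_mul, integral_finsetSum _ (fun r _ => i2 r)]
  simp only [integral_const_mul]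
  rw [h2]
  congr 1
  refine Finset.sum_congr rfl fun r _ => ?_
  congr 1
  rw [integral_finsetSum _ (fun s _ => i1 r s)]
  simp only [integral_const_mul]
  refine Finset.sum_congr rfl fun s _ => ?_
  congr 1
  rw [integral_finsetSum _ (fun q _ => (hi (ixC D c q) (ixC D c s) (ixC D c r)).1)]
  refine Finset.sum_congr rfl fun q _ => ?_
  exact (hi (ixC D c q) (ixC D c s) (ixC D c r)).2

end

end Pool.Agent.Lib.MP_1a91b9_ntT
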