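import Pool.Agent.Lib.MP_1a91b9_ntT.S2.Herm

/-!
# S2, the key estimate: smallness of smoothed Gaussian sums at scale `x → 0`
-/

set_option autoImplicit false

namespace Pool.Agent.Lib.MP_1a91b9_ntT.S2A

open NumberField MeasureTheory Module

noncomputable section

universe u

variable {F : Type u} [Field F] [NumberField F] [Algebra K F] {n : ℕ}

end

end Pool.Agent.Lib.MP_1a91b9_ntT.S2A

/-!
# Job KEY1
-/

set_option autoImplicit false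

namespace Pool.Agent.Lib.MP_1a91b9_ntT.S2A

open NumberField MeasureTheory Module

noncomputable section

universe u

variable {F : Type u} [Field F] [NumberField F] [Algebra K F] {n : ℕ}

/-- JOB KEY1. Absolute convergence of the shifted sums.
Proof: `gg_shift` with `c = -iotF σ b`, `E = c (x‖w‖)²`, `κ = (∑‖H j k‖) * ‖vec σ b‖` (`norm_hm_le`,
`norm_cj`), `R = ‖vec σ b‖`; `(Λ (‖w‖+R))^q ≤ (Λ (1+R) / x)^q (1 + x‖w‖)^q` (as `x ≤ 1`:
`‖w‖ + R ≤ (1+R)(1+‖w‖)` and `1 + ‖w‖ ≤ (1 + x‖w‖)/x`),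
`2κ‖w‖ = (2κ/x)(x‖w‖)`; `gauss_lat` with `κ := 2κ/x`.  `iot (vec σ (z - b)) = iotF σ z - iotF σ b`. -/
theorem summable_shift (σ : Fin n → (F →ₐ[K] ℂ)) (hσ : Function.Bijective σ) (D : ℕ) (hD : 0 < D)
    {δ : F → ℂ} (C0 : ℝ) (hδ : ∀ z, ‖δ z‖ ≤ C0 * ind D z) {q : ℕ} (c x : ℝ) (hc : 0 < c)
    (hx : 0 < x) (hx1 : x ≤ 1) (H : Matrix (Fin n) (Fin n) ℂ)
    (h1 : ∀ w : Fin n → ℂ, c * (x * ‖w‖) ^ 2 ≤ (hm H (cj w) w).re)
    (L : Fin q → (XX n →L[ℂ] ℂ)) (b : F) :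
    Summable fun z : F => δ z * gg H L (iot (vec σ (z - b))) := by
  set Λ : ℝ := ∑ i, ‖L i‖ with hΛd
  have hΛ : 0 ≤ Λ := Finset.sum_nonneg fun i _ => norm_nonneg _
  have hL : ∀ i, ‖L i‖ ≤ Λ := fun i =>
    Finset.single_le_sum (f := fun i => ‖L i‖) (fun i _ => norm_nonneg _) (Finset.mem_univ i)
  set B : ℝ := ∑ j, ∑ k, ‖H j k‖ with hBd
  have hB : 0 ≤ B := Finset.sum_nonneg fun j _ => Finset.sum_nonneg fun k _ => norm_nonneg _
  set R : ℝ := ‖vec σ b‖ with hRd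
  have hR : 0 ≤ R := norm_nonneg _
  set κ : ℝ := B * R with hκd
  have hκ : 0 ≤ κ := mul_nonneg hB hR
  obtain ⟨_, _, hsum⟩ := gauss_lat σ hσ D hD c (2 * κ / x) hc q
  obtain ⟨hs, _⟩ := hsum x hx hx1
  refine Summable.of_norm_bounded
    (hs.mul_left (|C0| * ((Λ * (1 + R) / x) ^ q * Real.exp (κ * R)))) fun z => ?_
  have hiot : iot (vec σ (z - b)) = iot (vec σ z) + (-(vec σ b), -(cj (vec σ b))) := by
    refine Prod.ext ?_ ?_
    · funext j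
      simp [iot, vec, sub_eq_add_neg]
    · funext j
      simp [iot, vec, cj, sub_eq_add_neg]
  have hn1 : ‖-(vec σ b)‖ = R := norm_neg _
  have hn2 : ‖-(cj (vec σ b))‖ = R := by rw [norm_neg, norm_cj]
  have hgg := gg_shift H L Λ κ R (c * (x * ‖vec σ z‖) ^ 2) hΛ hL (vec σ z)
    (-(vec σ b), -(cj (vec σ b)))
    (fun v => by
      refine (norm_hm_le H _ v).trans (le_of_eq ?_)
      simp only [hn2]
      rfl)
    (fun v => by
      refine (norm_hm_le H v _).trans (le_of_eq ?_)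
      simp only [hn1]
      rw [hκd, hBd]
      ring)
    hn1.le hn2.le hκ (h1 _)
  rw [norm_mul, hiot]
  have hw : 0 ≤ ‖vec σ z‖ := norm_nonneg _
  generalize ‖vec σ z‖ = W at hgg hw ⊢
  have hbase : Λ * (W + R) ≤ (Λ * (1 + R) / x) * (1 + x * W) := by
    have e1 : W + R ≤ (1 + R) * (1 + W) := by nlinarith
    have e2 : x * (1 + W) ≤ 1 + x * W := by nlinarith
    rw [div_mul_eq_mul_div, le_div_iff₀ hx]
    calc Λ * (W + R) * x ≤ Λ * ((1 + R) * (1 + W)) * x := by gcongr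
      _ = Λ * (1 + R) * (x * (1 + W)) := by ring
      _ ≤ Λ * (1 + R) * (1 + x * W) := by gcongr
  have hb0 : 0 ≤ Λ * (W + R) := by positivity
  have hexp : Real.exp (-(c * (x * W) ^ 2) + 2 * κ * W + κ * R) =
      Real.exp (κ * R) * Real.exp (-c * (x * W) ^ 2 + 2 * κ / x * (x * W)) := by
    rw [← Real.exp_add]
    congr 1
    field_simp
    ring
  have hδz : ‖δ z‖ ≤ |C0| * ind D z :=
    (hδ z).trans (mul_le_mul_of_nonneg_right (le_abs_self C0) (ind_nonneg D z))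
  have hi := ind_nonneg D z
  calc ‖δ z‖ * ‖gg H L (iot (vec σ z) + (-vec σ b, -cj (vec σ b)))‖
      ≤ (|C0| * ind D z) * ((Λ * (W + R)) ^ q *
          Real.exp (-(c * (x * W) ^ 2) + 2 * κ * W + κ * R)) := by
        exact mul_le_mul hδz hgg (norm_nonneg _) (by positivity)
    _ ≤ (|C0| * ind D z) * (((Λ * (1 + R) / x) * (1 + x * W)) ^ q *
          Real.exp (-(c * (x * W) ^ 2) + 2 * κ * W + κ * R)) := by
        gcongr
    _ = |C0| * ((Λ * (1 + R) / x) ^ q * Real.exp (κ * R)) * (ind D z * ((1 + x * W) ^ q *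
          Real.exp (-c * (x * W) ^ 2 + 2 * κ / x * (x * W)))) := by
        rw [hexp, mul_pow]
        ring

end

end Pool.Agent.Lib.MP_1a91b9_ntT.S2A

/-!
# Job KEY2
-/

set_option autoImplicit false

namespace Pool.Agent.Lib.MP_1a91b9_ntT.S2A

open NumberField MeasureTheory Module

noncomputable section

universe u

variable {F : Type u} [Field F] [NumberField F] [Algebra K F] {n : ℕ}

private theorem KEY2_alg {x Λ A c C W : ℝ} (hx : 0 < x) (hΛ : 0 ≤ Λ) (hA : 0 ≤ A) (hW : 0 ≤ W)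
    (N' q k : ℕ) (hk : k = N' + q) :
    x ^ k * ((Λ * (W + (k : ℝ) * (2 * A / x))) ^ q *
      Real.exp (-(c * (x * W) ^ 2) + 2 * ((k : ℝ) * (2 * C * x)) * W +
        ((k : ℝ) * (2 * C * x)) * ((k : ℝ) * (2 * A / x)))) ≤
      (x ^ N' * (Λ * (1 + 2 * A * k)) ^ q * Real.exp (4 * C * A * (k : ℝ) ^ 2)) *
        ((1 + x * W) ^ q * Real.exp (-c * (x * W) ^ 2 + (4 * C * k) * (x * W))) := by
  have hexp : -(c * (x * W) ^ 2) + 2 * ((k : ℝ) * (2 * C * x)) * W +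
        ((k : ℝ) * (2 * C * x)) * ((k : ℝ) * (2 * A / x)) =
      (4 * C * A * (k : ℝ) ^ 2) + (-c * (x * W) ^ 2 + (4 * C * k) * (x * W)) := by
    field_simp
    ring
  rw [hexp, Real.exp_add]
  have hpow : x ^ k * (Λ * (W + (k : ℝ) * (2 * A / x))) ^ q =
      x ^ N' * (Λ * (x * W + 2 * A * k)) ^ q := by
    rw [hk, pow_add, mul_assoc, ← mul_pow]
    congr 2
    field_simp
  have hle : (Λ * (x * W + 2 * A * k)) ^ q ≤ (Λ * (1 + 2 * A * k)) ^ q * (1 + x * W) ^ q := by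
    rw [← mul_pow]
    have hk0 : (0 : ℝ) ≤ k := Nat.cast_nonneg k
    have hAk : 0 ≤ A * k := mul_nonneg hA hk0
    have hxW : 0 ≤ x * W := mul_nonneg hx.le hW
    refine pow_le_pow_left₀ (by positivity) ?_ q
    rw [mul_assoc Λ]
    refine mul_le_mul_of_nonneg_left ?_ hΛ
    nlinarith [mul_nonneg hAk hxW]
  calc x ^ k * ((Λ * (W + (k : ℝ) * (2 * A / x))) ^ q *
      (Real.exp (4 * C * A * (k : ℝ) ^ 2) * Real.exp (-c * (x * W) ^ 2 + (4 * C * k) * (x * W))))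
      = (x ^ k * (Λ * (W + (k : ℝ) * (2 * A / x))) ^ q) *
      (Real.exp (4 * C * A * (k : ℝ) ^ 2) * Real.exp (-c * (x * W) ^ 2 + (4 * C * k) * (x * W))) := by ring
    _ = (x ^ N' * (Λ * (x * W + 2 * A * k)) ^ q) *
      (Real.exp (4 * C * A * (k : ℝ) ^ 2) * Real.exp (-c * (x * W) ^ 2 + (4 * C * k) * (x * W))) := by
        rw [hpow]
    _ ≤ (x ^ N' * ((Λ * (1 + 2 * A * k)) ^ q * (1 + x * W) ^ q)) *
      (Real.exp (4 * C * A * (k : ℝ) ^ 2) * Real.exp (-c * (x * W) ^ 2 + (4 * C * k) * (x * W))) := by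
        refine mul_le_mul_of_nonneg_right (mul_le_mul_of_nonneg_left hle (by positivity)) (by positivity)
    _ = _ := by ring

/-- The sets of shifts. -/
private def KEY2_set (H : Matrix (Fin n) (Fin n) ℂ) (C A x : ℝ) (i : ℕ) : Set (XX n) :=
  {c | (∀ v, ‖hm H c.2 v‖ ≤ (i : ℝ) * (2 * C * x) * ‖v‖) ∧
    (∀ v, ‖hm H v c.1‖ ≤ (i : ℝ) * (2 * C * x) * ‖v‖) ∧
    ‖c.1‖ ≤ (i : ℝ) * (2 * A / x) ∧ ‖c.2‖ ≤ (i : ℝ) * (2 * A / x)}

private theorem KEY2_zero (H : Matrix (Fin n) (Fin n) ℂ) (C A x : ℝ) : (0 : XX n) ∈ KEY2_set H C A x 0 := by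
  refine ⟨fun v => ?_, fun v => ?_, ?_, ?_⟩
  · have h : hm H ((0 : XX n)).2 v = 0 := by simp [hm]
    rw [h]; simp
  · have h : hm H v ((0 : XX n)).1 = 0 := by simp [hm]
    rw [h]; simp
  · simp
  · simp

private theorem KEY2_step (H : Matrix (Fin n) (Fin n) ℂ) {C A x : ℝ} (hx : 0 < x)
    (u : Fin n → ℂ) (hu : ‖u‖ ≤ A)
    (h1 : ∀ w, ‖hm H (cj u) w‖ ≤ C * x ^ 2 * ‖w‖) (h2 : ∀ w, ‖hm H w u‖ ≤ C * x ^ 2 * ‖w‖)
    (i : ℕ) (c : XX n) (s : ℂ) (hc : c ∈ KEY2_set H C A x i) (hs : ‖s‖ ≤ 2 / x) :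
    c + s • iot u ∈ KEY2_set H C A x (i + 1) := by
  obtain ⟨c1, c2, c3, c4⟩ := hc
  have hx0 : x ≠ 0 := hx.ne'
  have hs0 : 0 ≤ 2 / x := by positivity
  refine ⟨fun v => ?_, fun v => ?_, ?_, ?_⟩
  · have e : hm H (c + s • iot u).2 v = hm H c.2 v + s * hm H (cj u) v := by
      have e1 : (c + s • iot u).2 = c.2 + s • cj u := rfl
      rw [e1, hm_add_left, hm_smul_left]
    rw [e]
    refine (norm_add_le _ _).trans ?_
    rw [norm_mul]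
    have h3 : ‖s‖ * ‖hm H (cj u) v‖ ≤ (2 / x) * (C * x ^ 2 * ‖v‖) :=
      mul_le_mul hs (h1 v) (norm_nonneg _) hs0
    have h4 : (2 / x) * (C * x ^ 2 * ‖v‖) = 2 * C * x * ‖v‖ := by
      field_simp
    have h5 := c1 v
    push_cast
    rw [h4] at h3
    linarith
  · have e : hm H v (c + s • iot u).1 = hm H v c.1 + s * hm H v u := by
      have e1 : (c + s • iot u).1 = c.1 + s • u := rfl
      rw [e1, hm_add_right, hm_smul_right]
    rw [e]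
    refine (norm_add_le _ _).trans ?_
    rw [norm_mul]
    have h3 : ‖s‖ * ‖hm H v u‖ ≤ (2 / x) * (C * x ^ 2 * ‖v‖) :=
      mul_le_mul hs (h2 v) (norm_nonneg _) hs0
    have h4 : (2 / x) * (C * x ^ 2 * ‖v‖) = 2 * C * x * ‖v‖ := by
      field_simp
    have h5 := c2 v
    push_cast
    rw [h4] at h3
    linarith
  · have e1 : (c + s • iot u).1 = c.1 + s • u := rfl
    rw [e1]
    refine (norm_add_le _ _).trans ?_
    rw [norm_smul]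
    have h3 : ‖s‖ * ‖u‖ ≤ (2 / x) * A := mul_le_mul hs hu (norm_nonneg _) hs0
    have h4 : (2 / x) * A = 2 * A / x := by ring
    push_cast
    rw [h4] at h3
    linarith
  · have e1 : (c + s • iot u).2 = c.2 + s • cj u := rfl
    rw [e1]
    refine (norm_add_le _ _).trans ?_
    rw [norm_smul, norm_cj]
    have h3 : ‖s‖ * ‖u‖ ≤ (2 / x) * A := mul_le_mul hs hu (norm_nonneg _) hs0
    have h4 : (2 / x) * A = 2 * A / x := by ring
    push_cast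
    rw [h4] at h3
    linarith

/-- The bound for the iterated differences. -/
private theorem KEY2_dfl (σ : Fin n → (F →ₐ[K] ℂ)) {r : ℕ} (a : Fin r → F) (q : ℕ)
    {c C Λ A x : ℝ} (hC : 0 ≤ C) (hΛ : 0 ≤ Λ) (hA : ∀ j, ‖vec σ (a j)‖ ≤ A)
    (hx : 0 < x) (hx1 : x ≤ 1) (H : Matrix (Fin n) (Fin n) ℂ)
    (h1 : ∀ w : Fin n → ℂ, c * (x * ‖w‖) ^ 2 ≤ (hm H (cj w) w).re)
    (h2 : ∀ j w, ‖hm H (cj (vec σ (a j))) w‖ ≤ C * x ^ 2 * ‖w‖ ∧
        ‖hm H w (vec σ (a j))‖ ≤ C * x ^ 2 * ‖w‖)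
    (L : Fin q → (XX n →L[ℂ] ℂ)) (hL : ∀ i, ‖L i‖ ≤ Λ) (Ls : List F)
    (hLs : ∀ b ∈ Ls, b ∈ Set.range a) (z : F) :
    ‖dfl Ls (fun y => gg H L (iot (vec σ y))) z‖ ≤ x ^ Ls.length *
      ((Λ * (‖vec σ z‖ + (Ls.length : ℝ) * (2 * A / x))) ^ q *
        Real.exp (-(c * (x * ‖vec σ z‖) ^ 2) + 2 * ((Ls.length : ℝ) * (2 * C * x)) * ‖vec σ z‖ +
          ((Ls.length : ℝ) * (2 * C * x)) * ((Ls.length : ℝ) * (2 * A / x)))) := by
  have hρ : 1 < 2 / x := by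
    rw [lt_div_iff₀ hx]; linarith
  have hcomp : dfl Ls (fun y => gg H L (iot (vec σ y))) z =
      dfl (Ls.map (iotF σ)) (gg H L) (iotF σ z) := dfl_comp (iotF σ) (gg H L) Ls z
  rw [hcomp]
  have hb := dfl_bound (X := XX n) (KEY2_set H C A x) (Set.range fun j => iotF σ (a j)) hρ
    (KEY2_zero H C A x) (by
      rintro k c' b s hc' ⟨j, rfl⟩ hs
      exact KEY2_step H hx (vec σ (a j)) (hA j) (fun w => (h2 j w).1) (fun w => (h2 j w).2) k c' s hc' hs)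
    (Ls.map (iotF σ)) (by
      intro b hb
      obtain ⟨b', hb', rfl⟩ := List.mem_map.1 hb
      obtain ⟨j, rfl⟩ := hLs b' hb'
      exact ⟨j, rfl⟩) (differentiable_gg H L) (iotF σ z)
    ((Λ * (‖vec σ z‖ + (Ls.length : ℝ) * (2 * A / x))) ^ q *
        Real.exp (-(c * (x * ‖vec σ z‖) ^ 2) + 2 * ((Ls.length : ℝ) * (2 * C * x)) * ‖vec σ z‖ +
          ((Ls.length : ℝ) * (2 * C * x)) * ((Ls.length : ℝ) * (2 * A / x)))) (by
      intro c' hc'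
      rw [List.length_map] at hc'
      obtain ⟨c1, c2, c3, c4⟩ := hc'
      exact gg_shift H L Λ ((Ls.length : ℝ) * (2 * C * x)) ((Ls.length : ℝ) * (2 * A / x))
        (c * (x * ‖vec σ z‖) ^ 2) hΛ hL (vec σ z) c' c1 c2 c3 c4 (by positivity) (h1 (vec σ z)))
  rw [List.length_map] at hb
  have h3 : 2 / (2 / x) = x := by
    field_simp
  rw [h3] at hb
  exact hb

/-- JOB KEY2. THE KEY ESTIMATE.
Proof: `k = N + q + (2n+1)`, `ρ = 2/x ≥ 2`, `A = ∑ j, ‖vec σ (a j)‖`.  By `parts` (with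
`G z = gg H L (iot (vec σ z))`, summability from `summable_shift`) it is enough to bound
`‖∑' z, δ z * dfl Ls G z‖` for the lists `Ls` of length `k` with entries in the range of `a`.
`dfl Ls G z = dfl (Ls.map (iotF σ)) (gg H L) (iotF σ z)` (`dfl_comp`).  Apply `dfl_bound` with the
set `A := {iotF σ (a j)}` and
`C i := {c | (∀ v, ‖hm H c.2 v‖ ≤ i * (2 C x) * ‖v‖) ∧ (∀ v, ‖hm H v c.1‖ ≤ i * (2 C x) * ‖v‖) ∧
  ‖c.1‖ ≤ i * (2 A / x) ∧ ‖c.2‖ ≤ i * (2 A / x)}`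
(`‖s‖ ≤ 2/x`: `‖hm H (s • cj (vec σ (a j))) v‖ ≤ (2/x) C x² ‖v‖ = 2 C x ‖v‖`, etc.; `norm_cj`).
By `gg_shift` with `E = c (x‖vec σ z‖)²`, `κ = 2 C k x`, `R = 2 A k / x`:
`‖dfl Ls G z‖ ≤ x^k * (Λ (‖z‖ + 2Ak/x))^q * exp (-c (x‖z‖)² + 4 C k (x‖z‖) + 4 C A k²)`
`≤ x^(k-q) * (Λ (1+2Ak))^q * exp (4CAk²) * (1 + x‖z‖)^q exp (-c (x‖z‖)² + 4Ck (x‖z‖))`
and `gauss_lat` (with `κ = 4 C k`) bounds the sum over `z` by `C_g / x^(2n+1)`;
`x^(k-q) / x^(2n+1) = x^N`. -/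
theorem key (σ : Fin n → (F →ₐ[K] ℂ)) (hσ : Function.Bijective σ) (D : ℕ) (hD : 0 < D)
    {δ : F → ℂ} (C0 : ℝ) (hδ : ∀ z, ‖δ z‖ ≤ C0 * ind D z) {r : ℕ} (hr : 0 < r) (a : Fin r → F)
    (hs : ∀ z, ∑ j, δ (z + a j) = 0) (q N : ℕ) (c C Λ : ℝ) (hc : 0 < c) (hC : 0 ≤ C)
    (hΛ : 0 ≤ Λ) :
    ∃ C' : ℝ, 0 ≤ C' ∧ ∀ x : ℝ, 0 < x → x ≤ 1 → ∀ H : Matrix (Fin n) (Fin n) ℂ,
      (∀ w : Fin n → ℂ, c * (x * ‖w‖) ^ 2 ≤ (hm H (cj w) w).re) →
      (∀ j w, ‖hm H (cj (vec σ (a j))) w‖ ≤ C * x ^ 2 * ‖w‖ ∧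
        ‖hm H w (vec σ (a j))‖ ≤ C * x ^ 2 * ‖w‖) →
      ∀ L : Fin q → (XX n →L[ℂ] ℂ), (∀ i, ‖L i‖ ≤ Λ) →
        ‖∑' z, δ z * gg H L (iot (vec σ z))‖ ≤ C' * x ^ N := by
  set k : ℕ := N + (2 * n + 1) + q with hk
  set A : ℝ := ∑ j, ‖vec σ (a j)‖ with hA
  have hA0 : 0 ≤ A := Finset.sum_nonneg fun j _ => norm_nonneg _
  have hAj : ∀ j, ‖vec σ (a j)‖ ≤ A := fun j =>
    Finset.single_le_sum (f := fun j => ‖vec σ (a j)‖) (fun i _ => norm_nonneg _) (Finset.mem_univ j)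
  obtain ⟨Cg, hCg, hgauss⟩ := gauss_lat σ hσ D hD c (4 * C * k) hc q
  set B : ℝ := (Λ * (1 + 2 * A * k)) ^ q * Real.exp (4 * C * A * (k : ℝ) ^ 2) with hB
  have hB0 : 0 ≤ B := by
    rw [hB]
    have hk0 : (0 : ℝ) ≤ k := Nat.cast_nonneg k
    positivity
  refine ⟨|C0| * B * Cg, by positivity, ?_⟩
  intro x hx hx1 H hH1 hH2 L hL
  obtain ⟨hsum, htsum⟩ := hgauss x hx hx1
  have hpt : ∀ Ls : List F, Ls.length = k → (∀ b ∈ Ls, b ∈ Set.range a) → ∀ z : F,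
      ‖δ z * dfl Ls (fun y => gg H L (iot (vec σ y))) z‖ ≤
        (|C0| * (x ^ (N + (2 * n + 1)) * B)) * (ind D z * ((1 + x * ‖vec σ z‖) ^ q *
        Real.exp (-c * (x * ‖vec σ z‖) ^ 2 + (4 * C * k) * (x * ‖vec σ z‖)))) := by
    intro Ls hLs hLa z
    have h3 := KEY2_dfl (c := c) σ a q hC hΛ hAj hx hx1 H hH1 hH2 L hL Ls hLa z
    rw [hLs] at h3
    have h4 := h3.trans (KEY2_alg (c := c) (C := C) hx hΛ hA0 (norm_nonneg (vec σ z))
      (N + (2 * n + 1)) q k hk)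
    have h5 : ‖δ z‖ ≤ |C0| * ind D z :=
      (hδ z).trans (mul_le_mul_of_nonneg_right (le_abs_self C0) (ind_nonneg D z))
    rw [norm_mul]
    refine (mul_le_mul h5 h4 (norm_nonneg _) (mul_nonneg (abs_nonneg _) (ind_nonneg D z))).trans
      (le_of_eq ?_)
    rw [hB]
    ring
  refine parts hr a hs k (G := fun y => gg H L (iot (vec σ y)))
    (fun b => summable_shift σ hσ D hD C0 hδ c x hc hx hx1 H hH1 L b) _ ?_
  intro Ls hLs hLa
  have h6 := tsum_of_norm_bounded (hsum.mul_left (|C0| * (x ^ (N + (2 * n + 1)) * B))).hasSum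
    (hpt Ls hLs hLa)
  rw [tsum_mul_left] at h6
  refine h6.trans ?_
  have h7 : 0 ≤ |C0| * (x ^ (N + (2 * n + 1)) * B) := by positivity
  refine (mul_le_mul_of_nonneg_left htsum h7).trans (le_of_eq ?_)
  have hx0 : x ≠ 0 := hx.ne'
  rw [pow_add]
  field_simp

end

end Pool.Agent.Lib.MP_1a91b9_ntT.S2A
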